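import Mathlib

set_option autoImplicit false

namespace Pool.Agent.H16.MC

/-- truncation -/
noncomputable def Lam (p : ℝ) : ℝ := max 0 (min 1 (2 * p - 1 / 2))

lemma Lam_cont : Continuous Lam := by unfold Lam; fun_prop

lemma Lam_nonneg (p : ℝ) : 0 ≤ Lam p := le_max_left _ _

lemma Lam_le_one (p : ℝ) : Lam p ≤ 1 := max_le zero_le_one (min_le_left _ _)

lemma Lam_low {p : ℝ} (h : p ≤ 1 / 4) : Lam p = 0 := by
  unfold Lam
  rw [max_eq_left]
  exact (min_le_right _ _).trans (by linarith)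

lemma Lam_high {p : ℝ} (h : 3 / 4 ≤ p) : Lam p = 1 := by
  unfold Lam
  rw [min_eq_left (by linarith), max_eq_right zero_le_one]

lemma Lam_lip (p r : ℝ) : |Lam p - Lam r| ≤ 2 * |p - r| := by
  unfold Lam
  have h1 : |max 0 (min 1 (2 * p - 1 / 2)) - max 0 (min 1 (2 * r - 1 / 2))| ≤
      |min 1 (2 * p - 1 / 2) - min 1 (2 * r - 1 / 2)| := by
    rw [max_comm 0, max_comm 0]
    exact abs_max_sub_max_le_abs _ _ _
  have h2 : |min 1 (2 * p - 1 / 2) - min 1 (2 * r - 1 / 2)| ≤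
      |(2 * p - 1 / 2) - (2 * r - 1 / 2)| := by
    refine (abs_min_sub_min_le_max _ _ _ _).trans ?_
    rw [sub_self, abs_zero]
    exact max_le (abs_nonneg _) le_rfl
  have h3 : |(2 * p - 1 / 2) - (2 * r - 1 / 2)| = 2 * |p - r| := by
    rw [show (2 * p - 1 / 2) - (2 * r - 1 / 2) = 2 * (p - r) by ring, abs_mul, abs_two]
  linarith

lemma Lam_close {F p : ℝ} (hF : F = 0 ∨ F = 1) (h0 : 0 ≤ p) (h1 : p ≤ 1) :
    |F - Lam p| ≤ 2 * |F - p| := by
  have hn := Lam_nonneg p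
  have ho := Lam_le_one p
  rcases hF with rfl | rfl
  · rw [zero_sub, zero_sub, abs_neg, abs_neg, abs_of_nonneg hn, abs_of_nonneg h0]
    unfold Lam
    exact max_le (by linarith) ((min_le_right _ _).trans (by linarith))
  · rw [abs_of_nonneg (by linarith), abs_of_nonneg (by linarith)]
    have : 1 - 2 * (1 - p) ≤ Lam p := by
      unfold Lam
      by_cases h : 1 ≤ 2 * p - 1 / 2
      · rw [min_eq_left h, max_eq_right zero_le_one]; linarith
      · rw [min_eq_right (le_of_not_ge h)]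
        exact (by linarith : 1 - 2 * (1 - p) ≤ 2 * p - 1 / 2).trans (le_max_right _ _)
    linarith

/-- the key one-step bound -/
lemma Lam_step {p0 p1 a0 a1 F0 F1 : ℝ} (hF0 : F0 = 0 ∨ F0 = 1) (hF1 : F1 = 0 ∨ F1 = 1)
    (h0 : |a0| ≤ p0) (h0' : |a0| ≤ 1 - p0) (h0'' : |a0| ≤ 1 / 2)
    (h1 : |a1| ≤ p1) (h1' : |a1| ≤ 1 - p1) (h1'' : |a1| ≤ 1 / 2)
    (hd : p1 - p0 = a0 + a1) :
    |Lam p1 - Lam p0| ≤ 48 * (|a0| * |F0 - p0| + |a1| * |F1 - p1|) := by
  have hn0 := abs_nonneg a0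
  have hn1 := abs_nonneg a1
  have hlip := Lam_lip p1 p0
  have habs : |p1 - p0| ≤ |a0| + |a1| := by rw [hd]; exact abs_add_le _ _
  have key0 : 1 / 12 ≤ p0 → p0 ≤ 11 / 12 → 1 / 12 ≤ |F0 - p0| := by
    intro h2 h3
    rcases hF0 with rfl | rfl
    · rw [zero_sub, abs_neg, abs_of_nonneg (by linarith)]; exact h2
    · rw [abs_of_nonneg (by linarith)]; linarith
  have key1 : 1 / 12 ≤ p1 → p1 ≤ 11 / 12 → 1 / 12 ≤ |F1 - p1| := by
    intro h2 h3
    rcases hF1 with rfl | rfl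
    · rw [zero_sub, abs_neg, abs_of_nonneg (by linarith)]; exact h2
    · rw [abs_of_nonneg (by linarith)]; linarith
  have hm0 : 0 ≤ |a0| * |F0 - p0| := by positivity
  have hm1 : 0 ≤ |a1| * |F1 - p1| := by positivity
  have ha0 := abs_le.1 (le_refl |a0|)
  have ha1 := abs_le.1 (le_refl |a1|)
  -- only the first point active
  have only0 : |a1| ≤ |a0| → 1 / 12 ≤ p0 → p0 ≤ 11 / 12 →
      |Lam p1 - Lam p0| ≤ 48 * (|a0| * |F0 - p0| + |a1| * |F1 - p1|) := by
    intro h2 h3 h4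
    have := key0 h3 h4
    nlinarith
  have only1 : |a0| ≤ |a1| → 1 / 12 ≤ p1 → p1 ≤ 11 / 12 →
      |Lam p1 - Lam p0| ≤ 48 * (|a0| * |F0 - p0| + |a1| * |F1 - p1|) := by
    intro h2 h3 h4
    have := key1 h3 h4
    nlinarith
  have zero : Lam p1 = Lam p0 →
      |Lam p1 - Lam p0| ≤ 48 * (|a0| * |F0 - p0| + |a1| * |F1 - p1|) := by
    intro h; rw [h, sub_self, abs_zero]; linarith
  by_cases c0 : p0 < 1 / 12
  · by_cases c1 : p1 ≤ 1 / 4
    · exact zero (by rw [Lam_low c1, Lam_low (by linarith)])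
    · push Not at c1
      exact only1 (by linarith [ha0.2, ha1.2]) (by linarith) (by linarith [ha0.2, ha1.2])
  by_cases c0' : 11 / 12 < p0
  · by_cases c1 : 3 / 4 ≤ p1
    · exact zero (by rw [Lam_high c1, Lam_high (by linarith)])
    · push Not at c1
      exact only1 (by linarith [ha0.1, ha1.1]) (by linarith [ha0.1, ha1.1]) (by linarith)
  by_cases c2 : p1 < 1 / 12
  · by_cases c1 : p0 ≤ 1 / 4
    · exact zero (by rw [Lam_low c1, Lam_low (by linarith)])
    · push Not at c1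
      exact only0 (by linarith [ha0.1, ha1.1]) (by linarith) (by linarith [ha0.1, ha1.1])
  by_cases c2' : 11 / 12 < p1
  · by_cases c1 : 3 / 4 ≤ p0
    · exact zero (by rw [Lam_high c1, Lam_high (by linarith)])
    · push Not at c1
      exact only0 (by linarith [ha0.2, ha1.2]) (by linarith [ha0.2, ha1.2]) (by linarith)
  push Not at c0 c0' c2 c2'
  have k0 := key0 c0 c0'
  have k1 := key1 c2 c2'
  nlinarith

end Pool.Agent.H16.MC
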