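import Mathlib
import Pool.Agent.H16.MC.Real

set_option autoImplicit false
set_option linter.unusedSectionVars false

namespace Pool.Agent.H16.MC
open Finset

/-- sample space for one coordinate -/
abbrev W : Type := Bool × Bool × Fin 6

def sv (w : W) : ℤ := if w.1 then 1 else 0
def tv (w : W) : ℤ := if w.2.1 then 1 else 0
def kv (w : W) : ℤ := sv w - tv w
def av (w : W) : ℤ :=
  if w.1 then (if w.2.1 then (if w.2.2 < 5 then -1 else 0) else (if w.2.2 < 3 then 1 else 0))
  else (if w.2.1 then (if w.2.2 < 3 then 0 else -1) else (if w.2.2 < 5 then 1 else 0))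
def bv (w : W) : ℤ :=
  if w.1 then (if w.2.1 then (if w.2.2 < 5 then -1 else 0) else (if w.2.2 < 3 then 0 else -1))
  else (if w.2.1 then (if w.2.2 < 3 then 1 else 0) else (if w.2.2 < 5 then 1 else 0))

lemma kv_eq (w : W) : kv w = av w - bv w := by
  revert w; decide

lemma card_W : Fintype.card W = 24 := by decide

lemma fib_a (v : ℤ) (hv : v ∈ ({-1, 0, 1} : Finset ℤ)) : (univ.filter fun w : W => av w = v).card = 8 := by
  fin_cases hv <;> decide

lemma fib_b (v : ℤ) (hv : v ∈ ({-1, 0, 1} : Finset ℤ)) : (univ.filter fun w : W => bv w = v).card = 8 := by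
  fin_cases hv <;> decide

lemma mem_a (w : W) : av w ∈ ({-1, 0, 1} : Finset ℤ) := by
  revert w; decide

lemma mem_b (w : W) : bv w ∈ ({-1, 0, 1} : Finset ℤ) := by
  revert w; decide

/-- pushing forward the uniform law -/
lemma push (n : ℕ) (g : W → ℤ) (hg : ∀ w, g w ∈ ({-1, 0, 1} : Finset ℤ))
    (hf : ∀ v ∈ ({-1, 0, 1} : Finset ℤ), (univ.filter fun w : W => g w = v).card = 8)
    (F : (Fin n → ℤ) → ℝ) :
    ∑ w : Fin n → W, F (fun j => g (w j)) =
      8 ^ n * ∑ ε ∈ Fintype.piFinset (fun _ : Fin n => ({-1, 0, 1} : Finset ℤ)), F ε := by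
  classical
  have h1 : ∀ w ∈ (univ : Finset (Fin n → W)), (fun j => g (w j)) ∈
      Fintype.piFinset (fun _ : Fin n => ({-1, 0, 1} : Finset ℤ)) := by
    intro w _
    rw [Fintype.mem_piFinset]
    intro j
    exact hg (w j)
  rw [← Finset.sum_fiberwise_of_maps_to h1, Finset.mul_sum]
  apply Finset.sum_congr rfl
  intro ε hε
  have h2 : ∑ w ∈ univ.filter (fun w : Fin n → W => (fun j => g (w j)) = ε),
      F (fun j => g (w j)) = ∑ w ∈ univ.filter (fun w : Fin n → W => (fun j => g (w j)) = ε), F ε := by
    apply Finset.sum_congr rfl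
    intro w hw
    rw [(Finset.mem_filter.1 hw).2]
  rw [h2, Finset.sum_const, nsmul_eq_mul]
  congr 1
  have h3 : univ.filter (fun w : Fin n → W => (fun j => g (w j)) = ε) =
      Fintype.piFinset (fun j : Fin n => univ.filter fun w : W => g w = ε j) := by
    ext w
    simp only [Finset.mem_filter, Finset.mem_univ, true_and, Fintype.mem_piFinset]
    constructor
    · intro h j; exact congrFun h j
    · intro h; funext j; exact h j
  rw [h3, Fintype.card_piFinset]
  have h4 : ∀ j ∈ (univ : Finset (Fin n)), (univ.filter fun w : W => g w = ε j).card = 8 := by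
    intro j _
    exact hf (ε j) (Fintype.mem_piFinset.1 hε j)
  rw [Finset.prod_congr rfl h4]
  simp

section
variable {n m : ℕ} [NeZero m]

/-- the displacement given by a sample -/
def vec (g : W → ℤ) (w : Fin n → W) : Fin n → ZMod m := fun j => ((g (w j) : ℤ) : ZMod m)

def ee (j : Fin n) : Fin n → ZMod m := Pi.single j 1

/-- the average of `F` -/
noncomputable def P (F : (Fin n → ZMod m) → ℝ) (x : Fin n → ZMod m) : ℝ :=
  (∑ w : Fin n → W, F (x + vec kv w)) / 24 ^ n

/-- the first-order coefficients -/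
noncomputable def A (F : (Fin n → ZMod m) → ℝ) (j : Fin n) (x : Fin n → ZMod m) : ℝ :=
  (∑ w : Fin n → W, (kv (w j) : ℝ) * F (x + vec kv w)) / 24 ^ n

def flipS (w : W) : W := (!w.1, w.2)
def flipT (w : W) : W := (w.1, !w.2.1, w.2.2)

def flipS' (j : Fin n) (w : Fin n → W) : Fin n → W := Function.update w j (flipS (w j))
def flipT' (j : Fin n) (w : Fin n → W) : Fin n → W := Function.update w j (flipT (w j))

lemma flipS_inv (j : Fin n) : Function.Involutive (flipS' j) := by
  intro w
  funext i
  by_cases h : i = j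
  · subst h; simp [flipS', flipS]
  · simp [flipS', Function.update_of_ne h]

lemma flipT_inv (j : Fin n) : Function.Involutive (flipT' j) := by
  intro w
  funext i
  by_cases h : i = j
  · subst h; simp [flipT', flipT]
  · simp [flipT', Function.update_of_ne h]

lemma vec_flipS (j : Fin n) (w : Fin n → W) (h : sv (w j) = 1) :
    (vec kv w : Fin n → ZMod m) = vec kv (flipS' j w) + ee j := by
  funext i
  by_cases hi : i = j
  · subst hi
    have h1 : (w i).1 = true := by
      by_contra hc
      simp [sv, hc] at h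
    simp [vec, ee, flipS', flipS, kv, sv, tv, h1]
    ring
  · simp [vec, ee, flipS', Function.update_of_ne hi, Pi.single_eq_of_ne hi]

lemma vec_flipT (j : Fin n) (w : Fin n → W) (h : tv (w j) = 1) :
    (vec kv w : Fin n → ZMod m) + ee j = vec kv (flipT' j w) := by
  funext i
  by_cases hi : i = j
  · subst hi
    have h1 : (w i).2.1 = true := by
      by_contra hc
      simp [tv, hc] at h
    simp [vec, ee, flipT', flipT, kv, sv, tv, h1]
  · simp [vec, ee, flipT', Function.update_of_ne hi, Pi.single_eq_of_ne hi]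

lemma sv_cases (w : W) : sv w = 0 ∨ sv w = 1 := by
  unfold sv; split_ifs <;> simp

lemma tv_cases (w : W) : tv w = 0 ∨ tv w = 1 := by
  unfold tv; split_ifs <;> simp

lemma sv_flip (j : Fin n) (w : Fin n → W) : sv (flipS' j w j) = 1 - sv (w j) := by
  simp only [flipS', Function.update_self, flipS, sv]
  cases (w j).1 <;> simp

lemma tv_flip (j : Fin n) (w : Fin n → W) : tv (flipT' j w j) = 1 - tv (w j) := by
  simp only [flipT', Function.update_self, flipT, tv]
  cases (w j).2.1 <;> simp

lemma S_shift (F : (Fin n → ZMod m) → ℝ) (j : Fin n) (x : Fin n → ZMod m) :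
    ∑ w : Fin n → W, (sv (w j) : ℝ) * F (x + vec kv w) +
      ∑ w : Fin n → W, (sv (w j) : ℝ) * F (x + ee j + vec kv w) =
      ∑ w : Fin n → W, F (x + ee j + vec kv w) := by
  have h1 : ∑ w : Fin n → W, (sv (w j) : ℝ) * F (x + vec kv w) =
      ∑ w : Fin n → W, (1 - (sv (w j) : ℝ)) * F (x + ee j + vec kv w) := by
    rw [← Equiv.sum_comp (Function.Involutive.toPerm (flipS' j) (flipS_inv j))
      (fun w : Fin n → W => (1 - (sv (w j) : ℝ)) * F (x + ee j + vec kv w))]
    apply Finset.sum_congr rfl
    intro w _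
    have e : ((Function.Involutive.toPerm (flipS' j) (flipS_inv j)) w : Fin n → W) = flipS' j w := rfl
    rw [e, sv_flip]
    rcases sv_cases (w j) with h | h
    · rw [h]; simp
    · have h2 := vec_flipS (m := m) j w h
      rw [h, h2]
      push_cast
      congr 2
      · ring
      · abel
  rw [h1, ← Finset.sum_add_distrib]
  apply Finset.sum_congr rfl
  intro w _
  ring

lemma T_shift (F : (Fin n → ZMod m) → ℝ) (j : Fin n) (x : Fin n → ZMod m) :
    ∑ w : Fin n → W, (tv (w j) : ℝ) * F (x + vec kv w) +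
      ∑ w : Fin n → W, (tv (w j) : ℝ) * F (x + ee j + vec kv w) =
      ∑ w : Fin n → W, F (x + vec kv w) := by
  have h1 : ∑ w : Fin n → W, (tv (w j) : ℝ) * F (x + ee j + vec kv w) =
      ∑ w : Fin n → W, (1 - (tv (w j) : ℝ)) * F (x + vec kv w) := by
    rw [← Equiv.sum_comp (Function.Involutive.toPerm (flipT' j) (flipT_inv j))
      (fun w : Fin n → W => (1 - (tv (w j) : ℝ)) * F (x + vec kv w))]
    apply Finset.sum_congr rfl
    intro w _
    have e : ((Function.Involutive.toPerm (flipT' j) (flipT_inv j)) w : Fin n → W) = flipT' j w := rfl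
    rw [e, tv_flip]
    rcases tv_cases (w j) with h | h
    · rw [h]; simp
    · have h2 := vec_flipT (m := m) j w h
      rw [h, ← h2]
      push_cast
      congr 2
      · ring
      · abel
  rw [h1, ← Finset.sum_add_distrib]
  apply Finset.sum_congr rfl
  intro w _
  ring

lemma P_shift (F : (Fin n → ZMod m) → ℝ) (j : Fin n) (x : Fin n → ZMod m) :
    P F (x + ee j) - P F x = A F j x + A F j (x + ee j) := by
  have h1 := S_shift F j x
  have h2 := T_shift F j x
  have hA : ∀ y : Fin n → ZMod m, ∑ w : Fin n → W, (kv (w j) : ℝ) * F (y + vec kv w) =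
      ∑ w : Fin n → W, (sv (w j) : ℝ) * F (y + vec kv w) -
      ∑ w : Fin n → W, (tv (w j) : ℝ) * F (y + vec kv w) := by
    intro y
    rw [← Finset.sum_sub_distrib]
    apply Finset.sum_congr rfl
    intro w _
    unfold kv
    push_cast
    ring
  unfold P A
  rw [hA, hA, ← sub_div, ← add_div]
  congr 1
  linarith

end

end Pool.Agent.H16.MC
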