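import Mathlib
import Pool.Agent.H16.MC.Smooth

set_option autoImplicit false
set_option linter.unusedSectionVars false

namespace Pool.Agent.H16.MC
open Finset

section
variable {n m : ℕ} [NeZero m]

def swp (w : W) : W := (w.2.1, w.1, w.2.2)
def swp' (j : Fin n) (w : Fin n → W) : Fin n → W := Function.update w j (swp (w j))

lemma swp_inv (j : Fin n) : Function.Involutive (swp' j) := by
  intro w
  funext i
  by_cases h : i = j
  · subst h; simp [swp', swp]
  · simp [swp', Function.update_of_ne h]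

lemma kv_swp (j : Fin n) (w : Fin n → W) : kv (swp' j w j) = -kv (w j) := by
  simp only [swp', Function.update_self, swp, kv, sv, tv]
  ring

lemma kv_swp_ne {i j : Fin n} (h : i ≠ j) (w : Fin n → W) : kv (swp' j w i) = kv (w i) := by
  simp [swp', Function.update_of_ne h]

lemma sum_kv (j : Fin n) : ∑ w : Fin n → W, (kv (w j) : ℝ) = 0 := by
  have h := Equiv.sum_comp (Function.Involutive.toPerm (swp' j) (swp_inv j))
    (fun w : Fin n → W => (kv (w j) : ℝ))
  have h2 : ∀ w : Fin n → W, (kv ((Function.Involutive.toPerm (swp' j) (swp_inv j)) w j) : ℝ) =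
      -(kv (w j) : ℝ) := by
    intro w
    have e : ((Function.Involutive.toPerm (swp' j) (swp_inv j)) w : Fin n → W) = swp' j w := rfl
    rw [e, kv_swp]
    push_cast
    ring
  simp only [h2, Finset.sum_neg_distrib] at h
  linarith

lemma sum_kv_mul {i j : Fin n} (hij : i ≠ j) :
    ∑ w : Fin n → W, (kv (w i) : ℝ) * (kv (w j) : ℝ) = 0 := by
  have h := Equiv.sum_comp (Function.Involutive.toPerm (swp' j) (swp_inv j))
    (fun w : Fin n → W => (kv (w i) : ℝ) * (kv (w j) : ℝ))
  have h2 : ∀ w : Fin n → W,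
      (kv ((Function.Involutive.toPerm (swp' j) (swp_inv j)) w i) : ℝ) *
        (kv ((Function.Involutive.toPerm (swp' j) (swp_inv j)) w j) : ℝ) =
      -((kv (w i) : ℝ) * (kv (w j) : ℝ)) := by
    intro w
    have e : ((Function.Involutive.toPerm (swp' j) (swp_inv j)) w : Fin n → W) = swp' j w := rfl
    rw [e, kv_swp, kv_swp_ne hij]
    push_cast
    ring
  simp only [h2, Finset.sum_neg_distrib] at h
  linarith

lemma card_Om : (∑ _w : Fin n → W, (1 : ℝ)) = 24 ^ n := by
  rw [Finset.sum_const, Finset.card_univ, Fintype.card_fun, card_W, Fintype.card_fin]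
  simp

lemma sum_sv (j : Fin n) : ∑ w : Fin n → W, (sv (w j) : ℝ) = 24 ^ n / 2 := by
  have h := Equiv.sum_comp (Function.Involutive.toPerm (flipS' j) (flipS_inv j))
    (fun w : Fin n → W => (sv (w j) : ℝ))
  have h2 : ∀ w : Fin n → W, (sv ((Function.Involutive.toPerm (flipS' j) (flipS_inv j)) w j) : ℝ) =
      1 - (sv (w j) : ℝ) := by
    intro w
    have e : ((Function.Involutive.toPerm (flipS' j) (flipS_inv j)) w : Fin n → W) =
      flipS' j w := rfl
    rw [e, sv_flip]
    push_cast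
    ring
  simp only [h2, Finset.sum_sub_distrib] at h
  have := card_Om (n := n)
  linarith

lemma sum_tv (j : Fin n) : ∑ w : Fin n → W, (tv (w j) : ℝ) = 24 ^ n / 2 := by
  have h := sum_kv j
  have h2 : ∀ w : Fin n → W, (kv (w j) : ℝ) = (sv (w j) : ℝ) - (tv (w j) : ℝ) := by
    intro w; unfold kv; push_cast; ring
  simp only [h2, Finset.sum_sub_distrib] at h
  have := sum_sv j
  linarith

lemma kv_abs (w : W) : |(kv w : ℝ)| ≤ 1 := by
  unfold kv
  rcases sv_cases w with h | h <;> rcases tv_cases w with h' | h' <;> rw [h, h'] <;> norm_num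

lemma sv_nonneg (w : W) : (0 : ℝ) ≤ sv w := by
  rcases sv_cases w with h | h <;> rw [h] <;> norm_num

lemma tv_nonneg (w : W) : (0 : ℝ) ≤ tv w := by
  rcases tv_cases w with h | h <;> rw [h] <;> norm_num

lemma pow24 : (0 : ℝ) < 24 ^ n := by positivity

variable (F : (Fin n → ZMod m) → ℝ)

lemma P_nonneg (h0 : ∀ x, 0 ≤ F x) (x : Fin n → ZMod m) : 0 ≤ P F x := by
  unfold P
  apply div_nonneg (Finset.sum_nonneg fun w _ => h0 _) pow24.le

lemma P_le_one (h1 : ∀ x, F x ≤ 1) (x : Fin n → ZMod m) : P F x ≤ 1 := by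
  unfold P
  rw [div_le_one pow24, ← card_Om]
  exact Finset.sum_le_sum fun w _ => h1 _

lemma A_le_P (h0 : ∀ x, 0 ≤ F x) (j : Fin n) (x : Fin n → ZMod m) : |A F j x| ≤ P F x := by
  unfold A P
  rw [abs_div, abs_of_pos (pow24 (n := n))]
  apply div_le_div_of_nonneg_right _ pow24.le
  refine (Finset.abs_sum_le_sum_abs _ _).trans (Finset.sum_le_sum fun w _ => ?_)
  rw [abs_mul, abs_of_nonneg (h0 _)]
  have := mul_le_mul_of_nonneg_right (kv_abs (w j)) (h0 (x + vec kv w))
  linarith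

lemma A_compl (j : Fin n) (x : Fin n → ZMod m) : A (fun y => 1 - F y) j x = -A F j x := by
  unfold A
  rw [← neg_div]
  congr 1
  have h := sum_kv j
  simp only [mul_sub, mul_one, Finset.sum_sub_distrib]
  linarith

lemma P_compl (x : Fin n → ZMod m) : P (fun y => 1 - F y) x = 1 - P F x := by
  unfold P
  rw [Finset.sum_sub_distrib, card_Om, sub_div, div_self pow24.ne']

lemma A_le_one_sub (h1 : ∀ x, F x ≤ 1) (j : Fin n) (x : Fin n → ZMod m) :
    |A F j x| ≤ 1 - P F x := by
  have := A_le_P (fun y => 1 - F y) (fun y => by linarith [h1 y]) j x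
  rwa [A_compl, P_compl, abs_neg] at this

lemma A_le_half (h0 : ∀ x, 0 ≤ F x) (h1 : ∀ x, F x ≤ 1) (j : Fin n) (x : Fin n → ZMod m) :
    |A F j x| ≤ 1 / 2 := by
  unfold A
  rw [abs_div, abs_of_pos (pow24 (n := n)), div_le_iff₀ pow24, abs_le]
  have hs := sum_sv j
  have ht := sum_tv j
  constructor
  · have : -∑ w : Fin n → W, (tv (w j) : ℝ) ≤ ∑ w : Fin n → W, (kv (w j) : ℝ) * F (x + vec kv w) := by
      rw [← Finset.sum_neg_distrib]
      apply Finset.sum_le_sum
      intro w _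
      have e : (kv (w j) : ℝ) = (sv (w j) : ℝ) - (tv (w j) : ℝ) := by unfold kv; push_cast; ring
      rw [e]
      have a1 := mul_nonneg (sv_nonneg (w j)) (h0 (x + vec kv w))
      have a2 := mul_le_mul_of_nonneg_left (h1 (x + vec kv w)) (tv_nonneg (w j))
      nlinarith
    linarith
  · have : ∑ w : Fin n → W, (kv (w j) : ℝ) * F (x + vec kv w) ≤ ∑ w : Fin n → W, (sv (w j) : ℝ) := by
      apply Finset.sum_le_sum
      intro w _
      have e : (kv (w j) : ℝ) = (sv (w j) : ℝ) - (tv (w j) : ℝ) := by unfold kv; push_cast; ring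
      rw [e]
      have a1 := mul_nonneg (tv_nonneg (w j)) (h0 (x + vec kv w))
      have a2 := mul_le_mul_of_nonneg_left (h1 (x + vec kv w)) (sv_nonneg (w j))
      nlinarith
    linarith

/-- Bessel's inequality -/
lemma bessel (h1 : ∀ x, |F x| ≤ 1) (x : Fin n → ZMod m) : ∑ j, (A F j x) ^ 2 ≤ 1 := by
  set Q := ∑ j, (A F j x) ^ 2 with hQ
  have hQ0 : 0 ≤ Q := Finset.sum_nonneg fun j _ => sq_nonneg _
  have e1 : 24 ^ n * Q = ∑ w : Fin n → W, (∑ j, A F j x * (kv (w j) : ℝ)) * F (x + vec kv w) := by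
    have h2 : ∀ j, 24 ^ n * (A F j x) ^ 2 =
        ∑ w : Fin n → W, A F j x * (kv (w j) : ℝ) * F (x + vec kv w) := by
      intro j
      have h3 : ∑ w : Fin n → W, A F j x * (kv (w j) : ℝ) * F (x + vec kv w) =
          A F j x * ∑ w : Fin n → W, (kv (w j) : ℝ) * F (x + vec kv w) := by
        rw [Finset.mul_sum]
        exact Finset.sum_congr rfl fun w _ => by ring
      have h4 : ∑ w : Fin n → W, (kv (w j) : ℝ) * F (x + vec kv w) = 24 ^ n * A F j x := by
        unfold A
        rw [mul_div_cancel₀]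
        exact pow24.ne'
      rw [h3, h4]; ring
    rw [hQ, Finset.mul_sum, Finset.sum_congr rfl fun j _ => h2 j, Finset.sum_comm]
    exact Finset.sum_congr rfl fun w _ => by rw [Finset.sum_mul]
  have e2 : ∑ w : Fin n → W, (∑ j, A F j x * (kv (w j) : ℝ)) ^ 2 ≤ 24 ^ n * Q := by
    have h2 : ∀ w : Fin n → W, (∑ j, A F j x * (kv (w j) : ℝ)) ^ 2 =
        ∑ i, ∑ j, (A F i x * A F j x) * ((kv (w i) : ℝ) * (kv (w j) : ℝ)) := by
      intro w
      rw [sq, Finset.sum_mul_sum]
      exact Finset.sum_congr rfl fun i _ => Finset.sum_congr rfl fun j _ => by ring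
    simp only [h2]
    rw [Finset.sum_comm]
    have h3 : ∀ i ∈ (univ : Finset (Fin n)), ∑ w : Fin n → W, ∑ j,
        (A F i x * A F j x) * ((kv (w i) : ℝ) * (kv (w j) : ℝ)) ≤ 24 ^ n * (A F i x) ^ 2 := by
      intro i _
      rw [Finset.sum_comm]
      have h4 : ∀ j ∈ (univ : Finset (Fin n)), j ≠ i → ∑ w : Fin n → W,
          (A F i x * A F j x) * ((kv (w i) : ℝ) * (kv (w j) : ℝ)) = 0 := by
        intro j _ hj
        rw [← Finset.mul_sum, sum_kv_mul hj.symm, mul_zero]
      rw [Finset.sum_eq_single_of_mem i (Finset.mem_univ i) h4, ← Finset.mul_sum]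
      have h5 : ∑ w : Fin n → W, (kv (w i) : ℝ) * (kv (w i) : ℝ) ≤ 24 ^ n := by
        rw [← card_Om]
        apply Finset.sum_le_sum
        intro w _
        have := kv_abs (w i)
        rw [← sq, ← sq_abs]
        nlinarith [abs_nonneg (kv (w i) : ℝ)]
      have h6 : 0 ≤ A F i x * A F i x := mul_self_nonneg _
      calc A F i x * A F i x * ∑ w : Fin n → W, (kv (w i) : ℝ) * (kv (w i) : ℝ) ≤
          A F i x * A F i x * 24 ^ n := mul_le_mul_of_nonneg_left h5 h6
        _ = 24 ^ n * (A F i x) ^ 2 := by ring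
    refine (Finset.sum_le_sum h3).trans (le_of_eq ?_)
    rw [hQ, Finset.mul_sum]
  have e3 : (24 ^ n * Q) ^ 2 ≤ (24 ^ n * Q) * 24 ^ n := by
    have cs := Finset.sum_mul_sq_le_sq_mul_sq (univ : Finset (Fin n → W))
      (fun w => ∑ j, A F j x * (kv (w j) : ℝ)) (fun w => F (x + vec kv w))
    rw [← e1] at cs
    have h7 : ∑ w : Fin n → W, (F (x + vec kv w)) ^ 2 ≤ 24 ^ n := by
      rw [← card_Om]
      apply Finset.sum_le_sum
      intro w _
      have := h1 (x + vec kv w)
      rw [← sq_abs]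
      nlinarith [abs_nonneg (F (x + vec kv w))]
    have h8 : 0 ≤ ∑ w : Fin n → W, (F (x + vec kv w)) ^ 2 :=
      Finset.sum_nonneg fun _ _ => sq_nonneg _
    have h9 : 0 ≤ 24 ^ n * Q := mul_nonneg pow24.le hQ0
    calc (24 ^ n * Q) ^ 2 ≤ _ := cs
      _ ≤ (24 ^ n * Q) * 24 ^ n := mul_le_mul e2 h7 h8 h9
  have h10 : (0 : ℝ) < 24 ^ n := pow24
  by_contra hcon
  push Not at hcon
  have h11 : 24 ^ n < 24 ^ n * Q := by nlinarith
  have h12 : (24 ^ n * Q) * 24 ^ n < (24 ^ n * Q) ^ 2 := by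
    rw [sq]
    exact mul_lt_mul_of_pos_left h11 (by positivity)
  linarith

end

end Pool.Agent.H16.MC
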