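import Mathlib
import Pool.Agent.H16.MC.Bess

set_option autoImplicit false
set_option linter.unusedSectionVars false

namespace Pool.Agent.H16.MC
open Finset MeasureTheory

/-- the indicator of `s ≤ t` -/
noncomputable def I1 (s t : ℝ) : ℝ := if s ≤ t then 1 else 0

lemma I1_meas (t : ℝ) : Measurable fun s => I1 s t := by
  unfold I1
  exact Measurable.ite measurableSet_Iic measurable_const measurable_const

lemma I1_cases (s t : ℝ) : I1 s t = 0 ∨ I1 s t = 1 := by
  unfold I1; split_ifs <;> simp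

lemma I1_nonneg (s t : ℝ) : 0 ≤ I1 s t := by
  rcases I1_cases s t with h | h <;> rw [h]; norm_num

lemma I1_le_one (s t : ℝ) : I1 s t ≤ 1 := by
  rcases I1_cases s t with h | h <;> rw [h]; norm_num

lemma bi {g : ℝ → ℝ} (hg : Measurable g) {C : ℝ} (hC : ∀ s, |g s| ≤ C) (a b : ℝ) :
    IntervalIntegrable g volume a b := by
  refine (intervalIntegrable_const (c := C)).mono_fun' hg.aestronglyMeasurable ?_
  exact Filter.Eventually.of_forall fun s => by
    show ‖g s‖ ≤ C
    rw [Real.norm_eq_abs]; exact hC s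

lemma sum_ii {ι : Type*} (t : Finset ι) (f : ι → ℝ → ℝ) {a b : ℝ}
    (h : ∀ i ∈ t, IntervalIntegrable (f i) volume a b) :
    IntervalIntegrable (fun x => ∑ i ∈ t, f i x) volume a b := by
  have h1 := IntervalIntegrable.sum t h
  have h2 : (∑ i ∈ t, f i) = fun x => ∑ i ∈ t, f i x := by
    funext x; rw [Finset.sum_apply]
  rwa [h2] at h1

lemma I1_int (t R : ℝ) (ht : |t| ≤ R) : ∫ s in (-R)..R, I1 s t = t + R := by
  have h := abs_le.1 ht
  have hI : ∀ a b, IntervalIntegrable (fun s => I1 s t) volume a b :=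
    bi (I1_meas t) (C := 1) (fun s => by rw [abs_of_nonneg (I1_nonneg s t)]; exact I1_le_one s t)
  rw [← intervalIntegral.integral_add_adjacent_intervals (hI (-R) t) (hI t R)]
  have e1 : ∫ s in (-R)..t, I1 s t = ∫ _s in (-R)..t, (1 : ℝ) := by
    apply intervalIntegral.integral_congr_ae
    refine Filter.Eventually.of_forall fun s hs => ?_
    rw [Set.uIoc_of_le h.1] at hs
    simp [I1, hs.2]
  have e2 : ∫ s in t..R, I1 s t = ∫ _s in t..R, (0 : ℝ) := by
    apply intervalIntegral.integral_congr_ae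
    refine Filter.Eventually.of_forall fun s hs => ?_
    rw [Set.uIoc_of_le h.2] at hs
    simp [I1, hs.1]
  rw [e1, e2]
  simp

lemma I1_abs_int (a b R : ℝ) (ha : |a| ≤ R) (hb : |b| ≤ R) :
    ∫ s in (-R)..R, |I1 s a - I1 s b| = |a - b| := by
  wlog hab : a ≤ b generalizing a b
  · rw [abs_sub_comm a b, ← this b a hb ha (le_of_not_ge hab)]
    congr 1
    funext s
    exact abs_sub_comm _ _
  have e : ∀ s, |I1 s a - I1 s b| = I1 s b - I1 s a := by
    intro s
    have : I1 s a ≤ I1 s b := by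
      unfold I1
      split_ifs with h1 h2
      · exact le_rfl
      · exact absurd (h1.trans hab) h2
      · norm_num
      · exact le_rfl
    rw [abs_sub_comm, abs_of_nonneg (by linarith)]
  have hI : ∀ t, IntervalIntegrable (fun s => I1 s t) volume (-R) R := fun t =>
    bi (I1_meas t) (C := 1) (fun s => by rw [abs_of_nonneg (I1_nonneg s t)]; exact I1_le_one s t) _ _
  simp only [e]
  rw [intervalIntegral.integral_sub (hI b) (hI a), I1_int b R hb, I1_int a R ha,
    abs_sub_comm, abs_of_nonneg (by linarith)]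
  ring

section
variable {n m : ℕ} [NeZero m]

/-- level sets -/
noncomputable def Fs (φ : (Fin n → ZMod m) → ℝ) (s : ℝ) (x : Fin n → ZMod m) : ℝ := I1 s (φ x)

noncomputable def U (φ : (Fin n → ZMod m) → ℝ) (R : ℝ) (x : Fin n → ZMod m) : ℝ :=
  -R + ∫ s in (-R)..R, Lam (P (Fs φ s) x)

noncomputable def Dl (φ : (Fin n → ZMod m) → ℝ) (x : Fin n → ZMod m) : ℝ :=
  (∑ w : Fin n → W, |φ (x + vec kv w) - φ x|) / 24 ^ n

noncomputable def Bj (φ : (Fin n → ZMod m) → ℝ) (R : ℝ) (j : Fin n) (x : Fin n → ZMod m) : ℝ :=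
  ∫ s in (-R)..R, |A (Fs φ s) j x| * |Fs φ s x - P (Fs φ s) x|

variable (φ : (Fin n → ZMod m) → ℝ)

lemma Fs_meas (x : Fin n → ZMod m) : Measurable fun s => Fs φ s x := I1_meas _

lemma Fs_nonneg (s : ℝ) (x : Fin n → ZMod m) : 0 ≤ Fs φ s x := I1_nonneg _ _

lemma Fs_le_one (s : ℝ) (x : Fin n → ZMod m) : Fs φ s x ≤ 1 := I1_le_one _ _

lemma P_meas (x : Fin n → ZMod m) : Measurable fun s => P (Fs φ s) x := by
  unfold P
  apply Measurable.div_const
  exact Finset.measurable_fun_sum _ fun w _ => Fs_meas φ _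

lemma A_meas (j : Fin n) (x : Fin n → ZMod m) : Measurable fun s => A (Fs φ s) j x := by
  unfold A
  apply Measurable.div_const
  exact Finset.measurable_fun_sum _ fun w _ => (Fs_meas φ _).const_mul _

lemma abs_meas {g : ℝ → ℝ} (hg : Measurable g) : Measurable fun s => |g s| :=
  continuous_abs.measurable.comp hg

lemma P01 (s : ℝ) (x : Fin n → ZMod m) : 0 ≤ P (Fs φ s) x ∧ P (Fs φ s) x ≤ 1 :=
  ⟨P_nonneg _ (fun y => Fs_nonneg φ s y) x, P_le_one _ (fun y => Fs_le_one φ s y) x⟩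

lemma d_meas (x : Fin n → ZMod m) : Measurable fun s => |Fs φ s x - P (Fs φ s) x| :=
  abs_meas ((Fs_meas φ x).sub (P_meas φ x))

lemma d_le (s : ℝ) (x : Fin n → ZMod m) : |Fs φ s x - P (Fs φ s) x| ≤ 1 := by
  have h1 := P01 φ s x
  have h2 := Fs_nonneg φ s x
  have h3 := Fs_le_one φ s x
  rw [abs_le]; constructor <;> linarith [h1.1, h1.2]

lemma d_int (x : Fin n → ZMod m) (a b : ℝ) :
    IntervalIntegrable (fun s => |Fs φ s x - P (Fs φ s) x|) volume a b :=
  bi (d_meas φ x) (C := 1) (fun s => by rw [abs_abs]; exact d_le φ s x) a b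

lemma B_int (j : Fin n) (x : Fin n → ZMod m) (a b : ℝ) :
    IntervalIntegrable (fun s => |A (Fs φ s) j x| * |Fs φ s x - P (Fs φ s) x|) volume a b := by
  apply bi ((abs_meas (A_meas φ j x)).mul (d_meas φ x)) (C := 1)
  intro s
  show abs (|A (Fs φ s) j x| * |Fs φ s x - P (Fs φ s) x|) ≤ 1
  rw [abs_mul, abs_abs, abs_abs]
  have h1 := A_le_half (Fs φ s) (Fs_nonneg φ s) (Fs_le_one φ s) j x
  have h2 := d_le φ s x
  have h3 := abs_nonneg (A (Fs φ s) j x)
  have h4 := abs_nonneg (Fs φ s x - P (Fs φ s) x)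
  nlinarith

lemma L1 {R : ℝ} (hR : ∀ x, |φ x| ≤ R) (x : Fin n → ZMod m) :
    ∫ s in (-R)..R, |Fs φ s x - P (Fs φ s) x| ≤ Dl φ x := by
  have hR0 : 0 ≤ R := (abs_nonneg _).trans (hR x)
  have hI : ∀ w : Fin n → W, IntervalIntegrable
      (fun s => |Fs φ s (x + vec kv w) - Fs φ s x|) volume (-R) R := fun w =>
    bi (abs_meas ((Fs_meas φ _).sub (Fs_meas φ x))) (C := 1) (fun s => by
      show abs (|Fs φ s (x + vec kv w) - Fs φ s x|) ≤ 1
      rw [abs_abs, abs_le]
      have h1 := Fs_nonneg φ s (x + vec kv w)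
      have h2 := Fs_le_one φ s (x + vec kv w)
      have h3 := Fs_nonneg φ s x
      have h4 := Fs_le_one φ s x
      constructor <;> linarith) _ _
  have hpt : ∀ s, |Fs φ s x - P (Fs φ s) x| ≤
      (∑ w : Fin n → W, |Fs φ s (x + vec kv w) - Fs φ s x|) / 24 ^ n := by
    intro s
    have e : Fs φ s x - P (Fs φ s) x = -((∑ w : Fin n → W, (Fs φ s (x + vec kv w) - Fs φ s x)) / 24 ^ n) := by
      unfold P
      have h1 : ∑ w : Fin n → W, Fs φ s x = 24 ^ n * Fs φ s x := by
        have := card_Om (n := n)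
        rw [← this, Finset.sum_mul]
        simp
      rw [Finset.sum_sub_distrib, h1, sub_div, mul_div_cancel_left₀ _ pow24.ne']
      ring
    rw [e, abs_neg, abs_div, abs_of_pos (pow24 (n := n))]
    exact div_le_div_of_nonneg_right (Finset.abs_sum_le_sum_abs _ _) pow24.le
  have h2 : ∫ s in (-R)..R, |Fs φ s x - P (Fs φ s) x| ≤
      ∫ s in (-R)..R, (∑ w : Fin n → W, |Fs φ s (x + vec kv w) - Fs φ s x|) / 24 ^ n := by
    apply intervalIntegral.integral_mono_on (by linarith) (d_int φ x _ _)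
    · have : IntervalIntegrable (fun s => ∑ w : Fin n → W, |Fs φ s (x + vec kv w) - Fs φ s x|)
          volume (-R) R := sum_ii _ _ fun w _ => hI w
      exact this.div_const _
    · intro s _; exact hpt s
  refine h2.trans (le_of_eq ?_)
  rw [intervalIntegral.integral_div, intervalIntegral.integral_finsetSum fun w _ => hI w]
  unfold Dl
  congr 1
  apply Finset.sum_congr rfl
  intro w _
  exact I1_abs_int _ _ R (hR _) (hR _)

lemma Lam_int (x : Fin n → ZMod m) (a b : ℝ) :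
    IntervalIntegrable (fun s => Lam (P (Fs φ s) x)) volume a b :=
  bi (Lam_cont.measurable.comp (P_meas φ x)) (C := 1) (fun s => by
    rw [Function.comp, abs_of_nonneg (Lam_nonneg _)]; exact Lam_le_one _) a b

lemma L2 {R : ℝ} (hR : ∀ x, |φ x| ≤ R) (x : Fin n → ZMod m) : |φ x - U φ R x| ≤ 2 * Dl φ x := by
  have hR0 : 0 ≤ R := (abs_nonneg _).trans (hR x)
  have hF : IntervalIntegrable (fun s => Fs φ s x) volume (-R) R :=
    bi (Fs_meas φ x) (C := 1) (fun s => by
      rw [abs_of_nonneg (Fs_nonneg φ s x)]; exact Fs_le_one φ s x) _ _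
  have e : φ x - U φ R x = ∫ s in (-R)..R, (Fs φ s x - Lam (P (Fs φ s) x)) := by
    rw [intervalIntegral.integral_sub hF (Lam_int φ x _ _)]
    have := I1_int (φ x) R (hR x)
    unfold U Fs
    rw [this]
    ring
  rw [e]
  have h1 : |∫ s in (-R)..R, (Fs φ s x - Lam (P (Fs φ s) x))| ≤
      ∫ s in (-R)..R, |Fs φ s x - Lam (P (Fs φ s) x)| :=
    intervalIntegral.abs_integral_le_integral_abs (by linarith)
  have h2 : ∫ s in (-R)..R, |Fs φ s x - Lam (P (Fs φ s) x)| ≤
      ∫ s in (-R)..R, 2 * |Fs φ s x - P (Fs φ s) x| := by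
    apply intervalIntegral.integral_mono_on (by linarith)
      (hF.sub (Lam_int φ x _ _)).abs ((d_int φ x _ _).const_mul 2)
    intro s _
    exact Lam_close (I1_cases _ _) (P01 φ s x).1 (P01 φ s x).2
  rw [intervalIntegral.integral_const_mul] at h2
  have h3 := L1 φ hR x
  linarith

lemma L3 {R : ℝ} (hR0 : 0 ≤ R) (j : Fin n) (x : Fin n → ZMod m) :
    |U φ R (x + ee j) - U φ R x| ≤ 48 * (Bj φ R j x + Bj φ R j (x + ee j)) := by
  have e : U φ R (x + ee j) - U φ R x =
      ∫ s in (-R)..R, (Lam (P (Fs φ s) (x + ee j)) - Lam (P (Fs φ s) x)) := by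
    rw [intervalIntegral.integral_sub (Lam_int φ _ _ _) (Lam_int φ x _ _)]
    unfold U
    ring
  rw [e]
  have h1 : |∫ s in (-R)..R, (Lam (P (Fs φ s) (x + ee j)) - Lam (P (Fs φ s) x))| ≤
      ∫ s in (-R)..R, |Lam (P (Fs φ s) (x + ee j)) - Lam (P (Fs φ s) x)| :=
    intervalIntegral.abs_integral_le_integral_abs (by linarith)
  have h2 : ∫ s in (-R)..R, |Lam (P (Fs φ s) (x + ee j)) - Lam (P (Fs φ s) x)| ≤
      ∫ s in (-R)..R, 48 * (|A (Fs φ s) j x| * |Fs φ s x - P (Fs φ s) x| +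
        |A (Fs φ s) j (x + ee j)| * |Fs φ s (x + ee j) - P (Fs φ s) (x + ee j)|) := by
    apply intervalIntegral.integral_mono_on (by linarith)
      ((Lam_int φ _ _ _).sub (Lam_int φ x _ _)).abs
      (((B_int φ j x _ _).add (B_int φ j (x + ee j) _ _)).const_mul 48)
    intro s _
    exact Lam_step (I1_cases _ _) (I1_cases _ _)
      (A_le_P _ (Fs_nonneg φ s) j x) (A_le_one_sub _ (Fs_le_one φ s) j x)
      (A_le_half _ (Fs_nonneg φ s) (Fs_le_one φ s) j x)
      (A_le_P _ (Fs_nonneg φ s) j _) (A_le_one_sub _ (Fs_le_one φ s) j _)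
      (A_le_half _ (Fs_nonneg φ s) (Fs_le_one φ s) j _) (P_shift _ j x)
  rw [intervalIntegral.integral_const_mul,
    intervalIntegral.integral_add (B_int φ j x _ _) (B_int φ j (x + ee j) _ _)] at h2
  exact h1.trans h2

lemma Bj_nonneg {R : ℝ} (hR0 : 0 ≤ R) (j : Fin n) (x : Fin n → ZMod m) : 0 ≤ Bj φ R j x :=
  intervalIntegral.integral_nonneg (by linarith) fun s _ =>
    mul_nonneg (abs_nonneg _) (abs_nonneg _)

lemma Dl_nonneg (x : Fin n → ZMod m) : 0 ≤ Dl φ x :=
  div_nonneg (Finset.sum_nonneg fun _ _ => abs_nonneg _) pow24.le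

lemma L4 {R : ℝ} (hR : ∀ x, |φ x| ≤ R) (x : Fin n → ZMod m) :
    ∑ j, (Bj φ R j x) ^ 2 ≤ (Dl φ x) ^ 2 := by
  have hR0 : 0 ≤ R := (abs_nonneg _).trans (hR x)
  set Q := ∑ j, (Bj φ R j x) ^ 2 with hQ
  have hQ0 : 0 ≤ Q := Finset.sum_nonneg fun _ _ => sq_nonneg _
  have h1 : Q = ∫ s in (-R)..R, ∑ j, Bj φ R j x *
      (|A (Fs φ s) j x| * |Fs φ s x - P (Fs φ s) x|) := by
    rw [intervalIntegral.integral_finsetSum fun j _ => (B_int φ j x _ _).const_mul _]
    rw [hQ]
    apply Finset.sum_congr rfl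
    intro j _
    rw [intervalIntegral.integral_const_mul, sq]
    rfl
  have h2 : Q ≤ ∫ s in (-R)..R, Real.sqrt Q * |Fs φ s x - P (Fs φ s) x| := by
    conv_lhs => rw [h1]
    apply intervalIntegral.integral_mono_on (by linarith)
      (sum_ii _ _ fun j _ => (B_int φ j x _ _).const_mul _)
      ((d_int φ x _ _).const_mul _)
    intro s _
    have h3 : ∑ j, Bj φ R j x * (|A (Fs φ s) j x| * |Fs φ s x - P (Fs φ s) x|) =
        (∑ j, Bj φ R j x * |A (Fs φ s) j x|) * |Fs φ s x - P (Fs φ s) x| := by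
      rw [Finset.sum_mul]
      exact Finset.sum_congr rfl fun j _ => by ring
    rw [h3]
    apply mul_le_mul_of_nonneg_right _ (abs_nonneg _)
    apply Real.le_sqrt_of_sq_le
    have cs := Finset.sum_mul_sq_le_sq_mul_sq (univ : Finset (Fin n))
      (fun j => Bj φ R j x) (fun j => |A (Fs φ s) j x|)
    have hb := bessel (Fs φ s) (fun y => by
      rw [abs_of_nonneg (Fs_nonneg φ s y)]; exact Fs_le_one φ s y) x
    have hb2 : ∑ j, |A (Fs φ s) j x| ^ 2 ≤ 1 := by simpa only [sq_abs] using hb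
    calc (∑ j, Bj φ R j x * |A (Fs φ s) j x|) ^ 2 ≤ Q * ∑ j, |A (Fs φ s) j x| ^ 2 := cs
      _ ≤ Q * 1 := mul_le_mul_of_nonneg_left hb2 hQ0
      _ = Q := mul_one _
  rw [intervalIntegral.integral_const_mul] at h2
  have h5 := L1 φ hR x
  have h6 : Q ≤ Real.sqrt Q * Dl φ x := h2.trans (mul_le_mul_of_nonneg_left h5 (Real.sqrt_nonneg _))
  have h7 : Real.sqrt Q ≤ Dl φ x := by
    rcases (Real.sqrt_nonneg Q).eq_or_lt with h | h
    · rw [← h]; exact Dl_nonneg φ x
    · have h8 : Real.sqrt Q * Real.sqrt Q ≤ Real.sqrt Q * Dl φ x := by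
        rw [Real.mul_self_sqrt hQ0]; exact h6
      exact le_of_mul_le_mul_left h8 h
  calc Q = (Real.sqrt Q) ^ 2 := (Real.sq_sqrt hQ0).symm
    _ ≤ (Dl φ x) ^ 2 := pow_le_pow_left₀ (Real.sqrt_nonneg _) h7 2

end

end Pool.Agent.H16.MC
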