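import Mathlib
import Pool.Agent.H16.MC.Layer

set_option autoImplicit false
set_option linter.unusedSectionVars false

namespace Pool.Agent.H16.MC
open Finset MeasureTheory

universe u

section
variable {n m : ℕ} [NeZero m] {Y : Type u} [NormedAddCommGroup Y] [NormedSpace ℝ Y]
  {d : ℕ} {q K : ℝ}

/-- a solid seminorm on `ℝ^d` given by a linear map -/
def Solid (T : (Fin d → ℝ) →ₗ[ℝ] Y) : Prop :=
  ∀ a b : Fin d → ℝ, (∀ i, |a i| ≤ |b i|) → ‖T a‖ ≤ ‖T b‖

/-- lower `q`-estimate for square functions -/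
def Conc (T : (Fin d → ℝ) →ₗ[ℝ] Y) (q K : ℝ) : Prop :=
  ∀ (k : ℕ) (a : Fin k → Fin d → ℝ), ∑ j, ‖T (a j)‖ ^ q ≤
    K ^ q * ‖T (fun i => √(∑ j, (a j i) ^ 2))‖ ^ q

lemma sum_shift (g : (Fin n → ZMod m) → ℝ) (v : Fin n → ZMod m) :
    ∑ x, g (x + v) = ∑ x, g x :=
  Equiv.sum_comp (Equiv.addRight v) g

/-- `(a+b)^q ≤ 2^(q-1) (a^q + b^q)` -/
lemma two_pow {a b : ℝ} (ha : 0 ≤ a) (hb : 0 ≤ b) (hq : 1 ≤ q) :
    (a + b) ^ q ≤ 2 ^ (q - 1) * (a ^ q + b ^ q) := by
  have h := Real.rpow_sum_le_const_mul_sum_rpow (univ : Finset (Fin 2)) ![a, b] hq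
  simp only [Fin.sum_univ_two, Matrix.cons_val_zero, Matrix.cons_val_one, Finset.card_univ,
    Fintype.card_fin, abs_of_nonneg ha, abs_of_nonneg hb] at h
  exact_mod_cast h

lemma three_pow {a b c : ℝ} (ha : 0 ≤ a) (hb : 0 ≤ b) (hc : 0 ≤ c) (hq : 1 ≤ q) :
    (a + b + c) ^ q ≤ 3 ^ (q - 1) * (a ^ q + b ^ q + c ^ q) := by
  have h := Real.rpow_sum_le_const_mul_sum_rpow (univ : Finset (Fin 3)) ![a, b, c] hq
  simp only [Fin.sum_univ_three, Matrix.cons_val_zero, Matrix.cons_val_one, Matrix.cons_val,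
    Finset.card_univ,
    Fintype.card_fin, abs_of_nonneg ha, abs_of_nonneg hb, abs_of_nonneg hc] at h
  exact_mod_cast h

variable (T : (Fin d → ℝ) →ₗ[ℝ] Y) (c : (Fin n → ZMod m) → Fin d → ℝ)

/-- the smoothed map -/
noncomputable def UU (R : ℝ) (x : Fin n → ZMod m) : Fin d → ℝ := fun i => U (fun y => c y i) R x

noncomputable def DD (x : Fin n → ZMod m) : Fin d → ℝ := fun i => Dl (fun y => c y i) x

noncomputable def BB (R : ℝ) (j : Fin n) (x : Fin n → ZMod m) : Fin d → ℝ :=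
  fun i => Bj (fun y => c y i) R j x

/-- the cost of the displacement `v` -/
noncomputable def cost (q : ℝ) (v : Fin n → ZMod m) : ℝ := ∑ x, ‖T (c (x + v) - c x)‖ ^ q

variable {T c}

lemma cost_neg (v : Fin n → ZMod m) : cost T c q (-v) = cost T c q v := by
  unfold cost
  rw [← sum_shift (fun x => ‖T (c (x + -v) - c x)‖ ^ q) v]
  apply Finset.sum_congr rfl
  intro x _
  rw [show x + v + -v = x by abel, ← norm_neg, ← map_neg, neg_sub]

lemma cost_add (hq : 1 ≤ q) (v w : Fin n → ZMod m) :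
    cost T c q (v + w) ≤ 2 ^ (q - 1) * (cost T c q v + cost T c q w) := by
  unfold cost
  have h1 : ∑ x, ‖T (c (x + (v + w)) - c x)‖ ^ q ≤
      ∑ x, 2 ^ (q - 1) * (‖T (c (x + v) - c x)‖ ^ q + ‖T (c (x + v + w) - c (x + v))‖ ^ q) := by
    apply Finset.sum_le_sum
    intro x _
    refine le_trans ?_ (two_pow (norm_nonneg _) (norm_nonneg _) hq)
    apply Real.rpow_le_rpow (norm_nonneg _) _ (by linarith)
    have e : c (x + (v + w)) - c x = (c (x + v) - c x) + (c (x + v + w) - c (x + v)) := by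
      rw [add_assoc x v w]; abel
    rw [e, map_add]
    exact norm_add_le _ _
  refine h1.trans (le_of_eq ?_)
  rw [← Finset.mul_sum, Finset.sum_add_distrib]
  congr 2
  exact sum_shift (fun x => ‖T (c (x + w) - c x)‖ ^ q) v

lemma cost_avg (hq : 1 ≤ q) :
    (∑ w : Fin n → W, cost T c q (vec kv w)) / 24 ^ n ≤
      2 ^ q * ((∑ ε ∈ Fintype.piFinset (fun _ : Fin n => ({-1, 0, 1} : Finset ℤ)),
        cost T c q (fun j => ((ε j : ℤ) : ZMod m))) / 3 ^ n) := by
  have h1 : ∀ w : Fin n → W, cost T c q (vec kv w) ≤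
      2 ^ (q - 1) * (cost T c q (vec av w) + cost T c q (vec bv w)) := by
    intro w
    have e : (vec kv w : Fin n → ZMod m) = vec av w + -(vec bv w) := by
      funext j
      simp only [vec, kv_eq, Pi.add_apply, Pi.neg_apply]
      push_cast
      ring
    rw [e]
    refine (cost_add hq _ _).trans ?_
    rw [cost_neg]
  have ha := push n av mem_a fib_a (fun ε => cost T c q (fun j => ((ε j : ℤ) : ZMod m)))
  have hb := push n bv mem_b fib_b (fun ε => cost T c q (fun j => ((ε j : ℤ) : ZMod m)))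
  set E := ∑ ε ∈ Fintype.piFinset (fun _ : Fin n => ({-1, 0, 1} : Finset ℤ)),
        cost T c q (fun j => ((ε j : ℤ) : ZMod m)) with hE
  have h2 : ∑ w : Fin n → W, cost T c q (vec kv w) ≤
      2 ^ (q - 1) * (8 ^ n * E + 8 ^ n * E) := by
    have h3 : ∑ w : Fin n → W, cost T c q (vec kv w) ≤
        2 ^ (q - 1) * (∑ w : Fin n → W, cost T c q (vec av w) +
          ∑ w : Fin n → W, cost T c q (vec bv w)) := by
      rw [← Finset.sum_add_distrib, Finset.mul_sum]
      exact Finset.sum_le_sum fun w _ => h1 w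
    have ha' : ∑ w : Fin n → W, cost T c q (vec av w) = 8 ^ n * E := ha
    have hb' : ∑ w : Fin n → W, cost T c q (vec bv w) = 8 ^ n * E := hb
    rw [ha', hb'] at h3
    exact h3
  have h24 : (24 : ℝ) ^ n = 8 ^ n * 3 ^ n := by rw [← mul_pow]; norm_num
  have h2q : (2 : ℝ) ^ q = 2 ^ (q - 1) * 2 := by
    rw [← Real.rpow_add_one (by norm_num)]; congr 1; ring
  rw [div_le_iff₀ (by positivity), h24, h2q]
  have h8 : (0 : ℝ) < 8 ^ n := by positivity
  have h33 : (0 : ℝ) < 3 ^ n := by positivity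
  calc ∑ w : Fin n → W, cost T c q (vec kv w) ≤ 2 ^ (q - 1) * (8 ^ n * E + 8 ^ n * E) := h2
    _ = 2 ^ (q - 1) * 2 * (E / 3 ^ n) * (8 ^ n * 3 ^ n) := by
        field_simp
        norm_num

/-- the displaced average dominates the local oscillation -/
lemma DD_le (hT : Solid T) (hq : 1 ≤ q) (x : Fin n → ZMod m) :
    ‖T (DD c x)‖ ^ q ≤ (∑ w : Fin n → W, ‖T (c (x + vec kv w) - c x)‖ ^ q) / 24 ^ n := by
  have h24 : (0 : ℝ) < 24 ^ n := by positivity
  have e1 : DD c x = (1 / 24 ^ n : ℝ) • ∑ w : Fin n → W, (fun i => |c (x + vec kv w) i - c x i|) := by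
    funext i
    simp only [DD, Dl, Pi.smul_apply, Finset.sum_apply, smul_eq_mul]
    ring
  have h1 : ‖T (DD c x)‖ ≤ ∑ w : Fin n → W, (1 / 24 ^ n : ℝ) * ‖T (c (x + vec kv w) - c x)‖ := by
    rw [e1, map_smul, norm_smul, Real.norm_of_nonneg (by positivity), ← Finset.mul_sum, map_sum]
    apply mul_le_mul_of_nonneg_left _ (by positivity)
    refine (norm_sum_le _ _).trans (Finset.sum_le_sum fun w _ => ?_)
    apply hT
    intro i
    rw [abs_abs]; rfl
  have h2 := Real.rpow_arith_mean_le_arith_mean_rpow (univ : Finset (Fin n → W))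
    (fun _ => (1 / 24 ^ n : ℝ)) (fun w => ‖T (c (x + vec kv w) - c x)‖)
    (fun _ _ => by positivity) (by
      have := card_Om (n := n)
      rw [Finset.sum_const, nsmul_eq_mul, mul_one] at this
      rw [Finset.sum_const, nsmul_eq_mul, this]
      field_simp) (fun _ _ => norm_nonneg _) hq
  refine (Real.rpow_le_rpow (norm_nonneg _) h1 (by linarith)).trans (h2.trans (le_of_eq ?_))
  rw [← Finset.mul_sum]
  ring

lemma BB_le (hT : Solid T) (hC : Conc T q K) (hK : 0 ≤ K) (hq : 2 ≤ q) {R : ℝ}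
    (hR : ∀ x i, |c x i| ≤ R) (x : Fin n → ZMod m) :
    ∑ j, ‖T (BB c R j x)‖ ^ q ≤ K ^ q * ‖T (DD c x)‖ ^ q := by
  refine (hC n (fun j => BB c R j x)).trans ?_
  apply mul_le_mul_of_nonneg_left _ (Real.rpow_nonneg hK q)
  apply Real.rpow_le_rpow (norm_nonneg _) _ (by linarith)
  apply hT
  intro i
  have h4 := L4 (fun y => c y i) (fun y => hR y i) x
  have hD0 : 0 ≤ DD c x i := Dl_nonneg (fun y => c y i) x
  rw [abs_of_nonneg (Real.sqrt_nonneg _), abs_of_nonneg hD0]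
  exact Real.sqrt_le_iff.mpr ⟨hD0, h4⟩

lemma UU_step (hT : Solid T) {R : ℝ} (hR0 : 0 ≤ R) (j : Fin n) (x : Fin n → ZMod m) :
    ‖T (UU c R (x + ee j) - UU c R x)‖ ≤ 48 * (‖T (BB c R j x)‖ + ‖T (BB c R j (x + ee j))‖) := by
  have h1 : ‖T (UU c R (x + ee j) - UU c R x)‖ ≤
      ‖T ((48 : ℝ) • (BB c R j x + BB c R j (x + ee j)))‖ := by
    apply hT
    intro i
    refine (L3 (fun y => c y i) hR0 j x).trans (le_of_eq ?_)
    have h2 := Bj_nonneg (fun y => c y i) hR0 j x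
    have h3 := Bj_nonneg (fun y => c y i) hR0 j (x + ee j)
    have e : ((48 : ℝ) • (BB c R j x + BB c R j (x + ee j))) i =
        48 * (Bj (fun y => c y i) R j x + Bj (fun y => c y i) R j (x + ee j)) := by
      simp [BB]
    rw [e, abs_of_nonneg (by positivity)]
  refine h1.trans ?_
  rw [map_smul, norm_smul, Real.norm_of_nonneg (by norm_num), map_add]
  exact mul_le_mul_of_nonneg_left (norm_add_le _ _) (by norm_num)

lemma UU_close (hT : Solid T) {R : ℝ} (hR : ∀ x i, |c x i| ≤ R) (x : Fin n → ZMod m) :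
    ‖T (c x - UU c R x)‖ ≤ 2 * ‖T (DD c x)‖ := by
  have h1 : ‖T (c x - UU c R x)‖ ≤ ‖T ((2 : ℝ) • DD c x)‖ := by
    apply hT
    intro i
    refine (L2 (fun y => c y i) (fun y => hR y i) x).trans (le_of_eq ?_)
    have h2 := Dl_nonneg (fun y => c y i) x
    have e : ((2 : ℝ) • DD c x) i = 2 * Dl (fun y => c y i) x := by simp [DD]
    rw [e, abs_of_nonneg (by positivity)]
  refine h1.trans (le_of_eq ?_)
  rw [map_smul, norm_smul, Real.norm_of_nonneg (by norm_num)]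

lemma tele (hT : Solid T) {R : ℝ} (hR0 : 0 ≤ R) (j : Fin n) (k : ℕ) (x : Fin n → ZMod m) :
    ‖T (UU c R (x + k • ee j) - UU c R x)‖ ≤
      48 * ∑ l ∈ range k, (‖T (BB c R j (x + l • ee j))‖ + ‖T (BB c R j (x + (l + 1) • ee j))‖) := by
  induction k with
  | zero => simp
  | succ k ih =>
    have e : UU c R (x + (k + 1) • ee j) - UU c R x =
        (UU c R (x + k • ee j + ee j) - UU c R (x + k • ee j)) + (UU c R (x + k • ee j) - UU c R x) := by
      rw [show x + (k + 1) • ee j = x + k • ee j + ee j by rw [succ_nsmul]; abel]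
      abel
    rw [e, map_add, Finset.sum_range_succ]
    refine (norm_add_le _ _).trans ?_
    have h1 := UU_step (c := c) hT hR0 j (x + k • ee j)
    rw [show x + k • ee j + ee j = x + (k + 1) • ee j by rw [succ_nsmul]; abel] at h1 ⊢
    linarith

/-- one direction -/
lemma one_dir (hT : Solid T) (hq : 2 ≤ q) {R : ℝ} (hR0 : 0 ≤ R) (hR : ∀ x i, |c x i| ≤ R)
    (j : Fin n) (k : ℕ) (hk : 1 ≤ k) :
    cost T c q (k • ee j) ≤ 3 ^ (q - 1) * (2 * (2 ^ q * ∑ x, ‖T (DD c x)‖ ^ q) +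
      48 ^ q * ((2 * k : ℕ) : ℝ) ^ q * ∑ x, ‖T (BB c R j x)‖ ^ q) := by
  have hq1 : 1 ≤ q := by linarith
  have hq0 : 0 ≤ q := by linarith
  set β : (Fin n → ZMod m) → ℝ := fun y => ‖T (BB c R j y)‖ with hβ
  have hβ0 : ∀ y, 0 ≤ β y := fun y => norm_nonneg _
  set γ : (Fin n → ZMod m) → ℝ := fun y => ‖T (DD c y)‖ with hγ
  have hγ0 : ∀ y, 0 ≤ γ y := fun y => norm_nonneg _
  have hk0 : (0 : ℝ) < k := by exact_mod_cast hk
  -- pointwise
  have hpt : ∀ x, ‖T (c (x + k • ee j) - c x)‖ ^ q ≤ 3 ^ (q - 1) *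
      (2 ^ q * γ (x + k • ee j) ^ q + 2 ^ q * γ x ^ q +
        48 ^ q * ((k : ℝ) ^ (q - 1) * ∑ l ∈ range k, (2 ^ (q - 1) *
          (β (x + l • ee j) ^ q + β (x + (l + 1) • ee j) ^ q)))) := by
    intro x
    have e : c (x + k • ee j) - c x = (c (x + k • ee j) - UU c R (x + k • ee j)) +
        (UU c R x - c x) + (UU c R (x + k • ee j) - UU c R x) := by abel
    have h1 : ‖T (c (x + k • ee j) - c x)‖ ≤ 2 * γ (x + k • ee j) + 2 * γ x +
        48 * ∑ l ∈ range k, (β (x + l • ee j) + β (x + (l + 1) • ee j)) := by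
      rw [e, map_add, map_add]
      have a1 := UU_close (c := c) hT hR (x + k • ee j)
      have a2 := UU_close (c := c) hT hR x
      have a3 := tele (c := c) hT hR0 j k x
      have a4 : ‖T (UU c R x - c x)‖ = ‖T (c x - UU c R x)‖ := by
        rw [← norm_neg, ← map_neg, neg_sub]
      calc _ ≤ ‖T (c (x + k • ee j) - UU c R (x + k • ee j))‖ + ‖T (UU c R x - c x)‖ +
          ‖T (UU c R (x + k • ee j) - UU c R x)‖ := norm_add₃_le
        _ ≤ _ := by rw [a4]; exact add_le_add (add_le_add a1 a2) a3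
    have hs0 : 0 ≤ ∑ l ∈ range k, (β (x + l • ee j) + β (x + (l + 1) • ee j)) :=
      Finset.sum_nonneg fun l _ => add_nonneg (hβ0 _) (hβ0 _)
    refine (Real.rpow_le_rpow (norm_nonneg _) h1 hq0).trans ?_
    refine (three_pow (by have := hγ0 (x + k • ee j); positivity)
      (by have := hγ0 x; positivity) (by positivity) hq1).trans ?_
    apply mul_le_mul_of_nonneg_left _ (by positivity)
    rw [Real.mul_rpow (by norm_num) (hγ0 _), Real.mul_rpow (by norm_num) (hγ0 _),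
      Real.mul_rpow (by norm_num) hs0]
    apply add_le_add le_rfl
    apply mul_le_mul_of_nonneg_left _ (by positivity)
    have h2 := Real.rpow_sum_le_const_mul_sum_rpow (range k)
      (fun l => β (x + l • ee j) + β (x + (l + 1) • ee j)) hq1
    have h3 : ∀ l, |β (x + l • ee j) + β (x + (l + 1) • ee j)| =
        β (x + l • ee j) + β (x + (l + 1) • ee j) := fun l =>
      abs_of_nonneg (add_nonneg (hβ0 _) (hβ0 _))
    simp only [h3, Finset.card_range] at h2
    refine h2.trans ?_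
    apply mul_le_mul_of_nonneg_left _ (by positivity)
    exact Finset.sum_le_sum fun l _ => two_pow (hβ0 _) (hβ0 _) hq1
  unfold cost
  refine (Finset.sum_le_sum fun x _ => hpt x).trans ?_
  rw [← Finset.mul_sum]
  apply mul_le_mul_of_nonneg_left _ (by positivity)
  rw [Finset.sum_add_distrib, Finset.sum_add_distrib, ← Finset.mul_sum, ← Finset.mul_sum,
    ← Finset.mul_sum, ← Finset.mul_sum]
  have s1 : ∑ x, γ (x + k • ee j) ^ q = ∑ x, γ x ^ q := sum_shift (fun x => γ x ^ q) _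
  have s2 : ∑ x, ∑ l ∈ range k, (2 ^ (q - 1) *
      (β (x + l • ee j) ^ q + β (x + (l + 1) • ee j) ^ q)) =
      2 ^ (q - 1) * (k * (2 * ∑ x, β x ^ q)) := by
    rw [Finset.sum_comm]
    have h5 : ∀ l ∈ range k, ∑ x, (2 ^ (q - 1) *
        (β (x + l • ee j) ^ q + β (x + (l + 1) • ee j) ^ q)) =
        2 ^ (q - 1) * (2 * ∑ x, β x ^ q) := by
      intro l _
      rw [← Finset.mul_sum, Finset.sum_add_distrib, sum_shift (fun x => β x ^ q),
        sum_shift (fun x => β x ^ q)]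
      ring
    rw [Finset.sum_congr rfl h5, Finset.sum_const, Finset.card_range, nsmul_eq_mul]
    ring
  rw [s1, s2]
  have hkq : (k : ℝ) ^ (q - 1) * k = (k : ℝ) ^ q := by
    rw [← Real.rpow_add_one hk0.ne']; congr 1; ring
  have h2q : (2 : ℝ) ^ (q - 1) * 2 = 2 ^ q := by
    rw [← Real.rpow_add_one (by norm_num)]; congr 1; ring
  have hB0 : 0 ≤ ∑ x, β x ^ q := Finset.sum_nonneg fun _ _ => Real.rpow_nonneg (hβ0 _) _
  have e5 : ((2 * k : ℕ) : ℝ) ^ q = 2 ^ q * (k : ℝ) ^ q := by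
    push_cast
    rw [Real.mul_rpow (by norm_num) hk0.le]
  rw [e5, ← hkq, ← h2q]
  apply le_of_eq
  ring

/-- the inequality for a solid, concave seminorm on `ℝ^d` -/
theorem main_solid (hT : Solid T) (hC : Conc T q K) (hK : 1 ≤ K) (hq : 2 ≤ q)
    (hm : Even m) (hmn : (n : ℝ) ≤ (m : ℝ) ^ q) :
    ∑ j : Fin n, cost T c q ((m / 2) • ee j) ≤ (288 * K * m) ^ q *
      ((∑ ε ∈ Fintype.piFinset (fun _ : Fin n => ({-1, 0, 1} : Finset ℤ)),
        cost T c q (fun j => ((ε j : ℤ) : ZMod m))) / 3 ^ n) := by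
  classical
  have hq1 : 1 ≤ q := by linarith
  have hq0 : 0 ≤ q := by linarith
  have hK0 : 0 ≤ K := by linarith
  have hmpos : 0 < m := Nat.pos_of_ne_zero (NeZero.ne m)
  have hm0 : (0 : ℝ) < m := by exact_mod_cast hmpos
  obtain ⟨R, hR0, hR⟩ : ∃ R : ℝ, 0 ≤ R ∧ ∀ x i, |c x i| ≤ R := by
    refine ⟨∑ x, ∑ i, |c x i|, Finset.sum_nonneg fun _ _ => Finset.sum_nonneg fun _ _ =>
      abs_nonneg _, ?_⟩
    intro x i
    refine le_trans ?_ (Finset.single_le_sum (f := fun x => ∑ i, |c x i|)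
      (fun _ _ => Finset.sum_nonneg fun _ _ => abs_nonneg _) (Finset.mem_univ x))
    exact Finset.single_le_sum (f := fun i => |c x i|) (fun _ _ => abs_nonneg _)
      (Finset.mem_univ i)
  obtain ⟨k, hk⟩ := hm
  have hk2 : m / 2 = k := by omega
  have hk1 : 1 ≤ k := by omega
  have hmk : ((2 * k : ℕ) : ℝ) = m := by rw [hk]; push_cast; ring
  set S : ℝ := ∑ x, ‖T (DD c x)‖ ^ q with hS
  have hS0 : 0 ≤ S := Finset.sum_nonneg fun _ _ => Real.rpow_nonneg (norm_nonneg _) _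
  set E : ℝ := (∑ ε ∈ Fintype.piFinset (fun _ : Fin n => ({-1, 0, 1} : Finset ℤ)),
        cost T c q (fun j => ((ε j : ℤ) : ZMod m))) / 3 ^ n with hE
  have hSE : S ≤ 2 ^ q * E := by
    refine le_trans ?_ (cost_avg (T := T) (c := c) hq1)
    have h1 : S ≤ ∑ x, (∑ w : Fin n → W, ‖T (c (x + vec kv w) - c x)‖ ^ q) / 24 ^ n :=
      Finset.sum_le_sum fun x _ => DD_le hT hq1 x
    refine h1.trans (le_of_eq ?_)
    rw [← Finset.sum_div, Finset.sum_comm]
    rfl
  have hB : ∑ j : Fin n, ∑ x, ‖T (BB c R j x)‖ ^ q ≤ K ^ q * S := by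
    rw [Finset.sum_comm, hS, Finset.mul_sum]
    exact Finset.sum_le_sum fun x _ => BB_le hT hC hK0 hq hR x
  have h1 : ∑ j : Fin n, cost T c q ((m / 2) • ee j) ≤
      3 ^ (q - 1) * (n * (2 * (2 ^ q * S)) + 48 ^ q * (m : ℝ) ^ q * (K ^ q * S)) := by
    have h2 : ∀ j ∈ (univ : Finset (Fin n)), cost T c q ((m / 2) • ee j) ≤
        3 ^ (q - 1) * (2 * (2 ^ q * S) +
          48 ^ q * (m : ℝ) ^ q * ∑ x, ‖T (BB c R j x)‖ ^ q) := by
      intro j _
      have := one_dir (c := c) hT hq hR0 hR j k hk1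
      rw [hmk] at this
      rw [hk2]
      exact this
    refine (Finset.sum_le_sum h2).trans ?_
    have e7 : ∑ j : Fin n, 3 ^ (q - 1) * (2 * (2 ^ q * S) +
          48 ^ q * (m : ℝ) ^ q * ∑ x, ‖T (BB c R j x)‖ ^ q) =
        3 ^ (q - 1) * (n * (2 * (2 ^ q * S)) +
          48 ^ q * (m : ℝ) ^ q * ∑ j : Fin n, ∑ x, ‖T (BB c R j x)‖ ^ q) := by
      rw [Finset.mul_sum (s := (univ : Finset (Fin n))) (a := 48 ^ q * (m : ℝ) ^ q),
        ← Finset.mul_sum (s := (univ : Finset (Fin n))) (a := (3 : ℝ) ^ (q - 1)),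
        Finset.sum_add_distrib, Finset.sum_const,
        Finset.card_univ, Fintype.card_fin, nsmul_eq_mul]
    rw [e7]
    apply mul_le_mul_of_nonneg_left _ (by positivity)
    apply add_le_add le_rfl
    exact mul_le_mul_of_nonneg_left hB (by positivity)
  have hKq : 1 ≤ K ^ q := Real.one_le_rpow hK hq0
  have hmq : 0 < (m : ℝ) ^ q := Real.rpow_pos_of_pos hm0 q
  have h248 : (2 : ℝ) ^ q ≤ 48 ^ q := Real.rpow_le_rpow (by norm_num) (by norm_num) hq0
  have h48 : (0 : ℝ) < 48 ^ q := by positivity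
  have h3 : n * (2 * (2 ^ q * S)) + 48 ^ q * (m : ℝ) ^ q * (K ^ q * S) ≤
      3 * (48 ^ q * (m : ℝ) ^ q * (K ^ q * S)) := by
    have a1 : (2 : ℝ) ^ q * S ≤ 48 ^ q * S := mul_le_mul_of_nonneg_right h248 hS0
    have a2 : (n : ℝ) * (2 * (2 ^ q * S)) ≤ (m : ℝ) ^ q * (2 * (48 ^ q * S)) := by
      apply mul_le_mul hmn (by linarith) (by positivity) hmq.le
    have a3 : (m : ℝ) ^ q * (2 * (48 ^ q * S)) ≤ 2 * (48 ^ q * (m : ℝ) ^ q * (K ^ q * S)) := by
      have : 48 ^ q * (m : ℝ) ^ q * S ≤ 48 ^ q * (m : ℝ) ^ q * (K ^ q * S) := by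
        apply mul_le_mul_of_nonneg_left _ (by positivity)
        nlinarith
      nlinarith
    linarith
  have h33 : (3 : ℝ) ^ (q - 1) * 3 = 3 ^ q := by
    rw [← Real.rpow_add_one (by norm_num)]; congr 1; ring
  calc ∑ j : Fin n, cost T c q ((m / 2) • ee j)
      ≤ 3 ^ (q - 1) * (3 * (48 ^ q * (m : ℝ) ^ q * (K ^ q * S))) :=
        h1.trans (mul_le_mul_of_nonneg_left h3 (by positivity))
    _ = 3 ^ q * 48 ^ q * (m : ℝ) ^ q * K ^ q * S := by rw [← h33]; ring
    _ ≤ 3 ^ q * 48 ^ q * (m : ℝ) ^ q * K ^ q * (2 ^ q * E) :=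
        mul_le_mul_of_nonneg_left hSE (by positivity)
    _ = (288 * K * m) ^ q * E := by
        rw [Real.mul_rpow (by positivity) hm0.le, Real.mul_rpow (by norm_num) hK0,
          show (288 : ℝ) = 3 * 48 * 2 by norm_num, Real.mul_rpow (by norm_num) (by norm_num),
          Real.mul_rpow (by norm_num) (by norm_num)]
        ring

end

end Pool.Agent.H16.MC
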