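import Mathlib
import Pool.Agent.H16.MC.Lattice

set_option autoImplicit false

namespace Pool.Agent.H16.MC
open Finset

universe u

/-- Rademacher cotype `q` with constant `C` -/
def Cot (Y : Type u) [NormedAddCommGroup Y] (q C : ℝ) : Prop :=
  ∀ (k : ℕ) (y : Fin k → Y), ∑ j, ‖y j‖ ^ q ≤
    C ^ q * ((∑ σ : Fin k → ℤˣ, ‖∑ j, (σ j : ℤ) • y j‖ ^ q) / 2 ^ k)

section
variable {Y : Type u} [NormedAddCommGroup Y] [NormedSpace ℝ Y] {d : ℕ} {q C : ℝ}
  {T : (Fin d → ℝ) →ₗ[ℝ] Y}

lemma card_sgn (k : ℕ) : (Finset.univ : Finset (Fin k → ℤˣ)).card = 2 ^ k := by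
  simp

lemma unit_abs (s : ℤˣ) : |((s : ℤ) : ℝ)| = 1 := by
  rcases Int.units_eq_one_or s with h | h <;> simp [h]

lemma fam_le (hT : Solid T) (hC : Cot Y q C) (hC0 : 0 ≤ C) (hq : 1 ≤ q) {D : Fin d → ℝ}
    (hD : ∀ i, 0 ≤ D i) {N : ℕ} (h : Fin N → Fin d → ℝ) (h0 : ∀ i c, 0 ≤ h i c)
    (h1 : ∀ c, ∑ i, h i c ≤ 1) : ∑ i, ‖T (h i * D)‖ ^ q ≤ C ^ q * ‖T D‖ ^ q := by
  refine (hC N fun i => T (h i * D)).trans ?_
  apply mul_le_mul_of_nonneg_left _ (Real.rpow_nonneg hC0 q)
  rw [div_le_iff₀ (by positivity)]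
  have h2 : ∀ σ ∈ (Finset.univ : Finset (Fin N → ℤˣ)),
      ‖∑ j, (σ j : ℤ) • T (h j * D)‖ ^ q ≤ ‖T D‖ ^ q := by
    intro σ _
    apply Real.rpow_le_rpow (norm_nonneg _) _ (by linarith)
    have e : ∑ j, (σ j : ℤ) • T (h j * D) = T (∑ j, (σ j : ℤ) • (h j * D)) := by
      rw [map_sum]
      exact Finset.sum_congr rfl fun j _ => (map_zsmul T _ _).symm
    rw [e]
    apply hT
    intro c
    rw [Finset.sum_apply]
    refine (Finset.abs_sum_le_sum_abs _ _).trans ?_
    have h3 : ∀ j, |((σ j : ℤ) • (h j * D)) c| = h j c * D c := by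
      intro j
      have : ((σ j : ℤ) • (h j * D)) c = ((σ j : ℤ) : ℝ) * (h j c * D c) := by
        simp
      rw [this, abs_mul, unit_abs, one_mul, abs_of_nonneg (mul_nonneg (h0 j c) (hD c))]
    simp only [h3]
    rw [← Finset.sum_mul, abs_of_nonneg (hD c)]
    calc (∑ i, h i c) * D c ≤ 1 * D c := mul_le_mul_of_nonneg_right (h1 c) (hD c)
      _ = D c := one_mul _
  refine (Finset.sum_le_sum h2).trans (le_of_eq ?_)
  rw [Finset.sum_const, card_sgn, nsmul_eq_mul]
  push_cast
  ring

/-- the key lemma: disjoint-like averaging from cotype -/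
theorem pis (hT : Solid T) (hC : Cot Y q C) (hC0 : 0 ≤ C) (hq : 1 ≤ q) {D : Fin d → ℝ}
    (hD : ∀ i, 0 ≤ D i) {ι : Type} [Fintype ι] (g : ι → Fin d → ℝ) (g0 : ∀ i c, 0 ≤ g i c)
    (g1 : ∀ i c, g i c ≤ 1) {w : ℝ} (hw : 0 ≤ w) (hsum : ∀ c, ∑ i, g i c ≤ w) :
    ∑ i, ‖T (g i * D)‖ ^ q ≤ q * w * (C ^ q * ‖T D‖ ^ q) := by
  classical
  have hq0 : 0 ≤ q := by linarith
  set S : Set ℝ := {r | ∃ (N : ℕ) (h : Fin N → Fin d → ℝ), (∀ i c, 0 ≤ h i c) ∧
    (∀ c, ∑ i, h i c ≤ 1) ∧ r = ∑ i, ‖T (h i * D)‖ ^ q} with hS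
  have hbdd : BddAbove S := by
    refine ⟨C ^ q * ‖T D‖ ^ q, ?_⟩
    rintro r ⟨N, h, h0, h1, rfl⟩
    exact fam_le hT hC hC0 hq hD h h0 h1
  have hne : S.Nonempty := ⟨0, 0, fun i => i.elim0, fun i => i.elim0, fun c => by simp, by simp⟩
  set Wt : ℝ := sSup S with hWt
  have hW0 : 0 ≤ Wt := by
    apply le_csSup hbdd
    exact ⟨0, fun i => i.elim0, fun i => i.elim0, fun c => by simp, by simp⟩
  have hWC : Wt ≤ C ^ q * ‖T D‖ ^ q := by
    apply csSup_le hne
    rintro r ⟨N, h, h0, h1, rfl⟩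
    exact fam_le hT hC hC0 hq hD h h0 h1
  have key : ∀ ε : ℝ, 0 < ε → ∑ i, ‖T (g i * D)‖ ^ q ≤ (Fintype.card ι) * ε + q * (w * Wt) := by
    intro ε hε
    obtain ⟨r, ⟨N, h, h0, h1, rfl⟩, hr⟩ := exists_lt_of_lt_csSup hne (sub_lt_self Wt hε)
    choose φ hφ1 hφ2 using fun i : Fin N => exists_dual_vector'' ℝ (T (h i * D))
    set α : Fin N → ℝ := fun i => ‖T (h i * D)‖ with hα
    have hα0 : ∀ i, 0 ≤ α i := fun i => norm_nonneg _
    have hφle : ∀ i (y : Y), φ i y ≤ ‖y‖ := by
      intro i y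
      calc φ i y ≤ ‖φ i y‖ := Real.le_norm_self _
        _ ≤ ‖φ i‖ * ‖y‖ := (φ i).le_opNorm y
        _ ≤ 1 * ‖y‖ := mul_le_mul_of_nonneg_right (hφ1 i) (norm_nonneg _)
        _ = ‖y‖ := one_mul _
    have hφeq : ∀ i, φ i (T (h i * D)) = α i := by
      intro i
      have := hφ2 i
      simpa using this
    set lam : (Fin d → ℝ) → ℝ := fun u => ∑ i, α i ^ (q - 1) * φ i (T (u * (h i * D))) with hlam
    have lam_sum : lam (∑ i, g i) = ∑ i, lam (g i) := by
      simp only [hlam]
      rw [Finset.sum_comm]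
      apply Finset.sum_congr rfl
      intro i _
      rw [← Finset.mul_sum]
      congr 1
      rw [Finset.sum_mul, map_sum, map_sum]
    have hαq : ∀ i, α i ^ (q - 1) * α i = α i ^ q := by
      intro i
      rcases (hα0 i).eq_or_lt with h' | h'
      · rw [← h', mul_zero, Real.zero_rpow (by linarith)]
      · rw [← Real.rpow_add_one h'.ne']; congr 1; ring
    have lam_le : lam (∑ i, g i) ≤ w * ∑ i, α i ^ q := by
      simp only [hlam]
      rw [Finset.mul_sum]
      apply Finset.sum_le_sum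
      intro i _
      have h2 : φ i (T ((∑ i, g i) * (h i * D))) ≤ w * α i := by
        refine (hφle i _).trans ?_
        have h3 : ‖T ((∑ i, g i) * (h i * D))‖ ≤ ‖T (w • (h i * D))‖ := by
          apply hT
          intro c
          have e1 : ((∑ i, g i) * (h i * D)) c = (∑ i, g i c) * (h i c * D c) := by
            simp [Finset.sum_apply]
          have e2 : (w • (h i * D)) c = w * (h i c * D c) := by simp
          have hp : 0 ≤ h i c * D c := mul_nonneg (h0 i c) (hD c)
          have hs : 0 ≤ ∑ i, g i c := Finset.sum_nonneg fun j _ => g0 j c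
          rw [e1, e2, abs_of_nonneg (mul_nonneg hs hp), abs_of_nonneg (mul_nonneg hw hp)]
          exact mul_le_mul_of_nonneg_right (hsum c) hp
        refine h3.trans (le_of_eq ?_)
        rw [map_smul, norm_smul, Real.norm_of_nonneg hw]
      calc α i ^ (q - 1) * φ i (T ((∑ i, g i) * (h i * D)))
          ≤ α i ^ (q - 1) * (w * α i) :=
            mul_le_mul_of_nonneg_left h2 (Real.rpow_nonneg (hα0 i) _)
        _ = w * (α i ^ (q - 1) * α i) := by ring
        _ = w * α i ^ q := by rw [hαq]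
    -- the bound for one `g`
    have one : ∀ j, ‖T (g j * D)‖ ^ q ≤ ε + q * lam (g j) := by
      intro j
      have hx : ∀ i, φ i (T (g j * (h i * D))) ≤ α i := by
        intro i
        refine (hφle i _).trans ?_
        apply hT
        intro c
        have hp : 0 ≤ h i c * D c := mul_nonneg (h0 i c) (hD c)
        have e1 : (g j * (h i * D)) c = g j c * (h i c * D c) := rfl
        have e2 : (h i * D) c = h i c * D c := rfl
        rw [e1, e2, abs_of_nonneg (mul_nonneg (g0 j c) hp), abs_of_nonneg hp]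
        calc g j c * (h i c * D c) ≤ 1 * (h i c * D c) := mul_le_mul_of_nonneg_right (g1 j c) hp
          _ = _ := one_mul _
      have hlow : ∀ i, α i ^ q - q * (α i ^ (q - 1) * φ i (T (g j * (h i * D)))) ≤
          ‖T (((1 - g j) * h i) * D)‖ ^ q := by
        intro i
        set x := φ i (T (g j * (h i * D))) with hxd
        have h4 : α i - x ≤ ‖T (((1 - g j) * h i) * D)‖ := by
          have e : ((1 - g j) * h i) * D = h i * D - g j * (h i * D) := by ring
          rw [e, map_sub]
          have := hφle i (T (h i * D) - T (g j * (h i * D)))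
          rw [map_sub, hφeq] at this
          exact this
        have h5 : 0 ≤ α i - x := by linarith [hx i]
        refine le_trans ?_ (Real.rpow_le_rpow h5 h4 hq0)
        rcases (hα0 i).eq_or_lt with h' | h'
        · have hx0 : 0 ≤ -x := by linarith
          rw [← h', Real.zero_rpow (by linarith)]
          rcases hq.eq_or_lt with h6 | h6
          · rw [← h6]; simp
          · rw [Real.zero_rpow (by linarith)]
            simp only [zero_mul, mul_zero, sub_zero]
            exact Real.rpow_nonneg (by linarith) _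
        · have h7 : -1 ≤ -(x / α i) := by
            rw [neg_le_neg_iff, div_le_one h']; linarith
          have h8 := one_add_mul_self_le_rpow_one_add h7 hq
          have e3 : α i - x = α i * (1 + -(x / α i)) := by field_simp; ring
          have h9 : 0 ≤ 1 + -(x / α i) := by linarith
          rw [e3, Real.mul_rpow h'.le h9]
          have h10 : α i ^ q * (1 + q * -(x / α i)) ≤ α i ^ q * (1 + -(x / α i)) ^ q :=
            mul_le_mul_of_nonneg_left h8 (Real.rpow_nonneg h'.le _)
          refine le_trans (le_of_eq ?_) h10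
          rw [← hαq i]
          field_simp
          ring
      -- the extended family
      have hfam : ‖T (g j * D)‖ ^ q + ∑ i, ‖T (((1 - g j) * h i) * D)‖ ^ q ≤ Wt := by
        apply le_csSup hbdd
        refine ⟨N + 1, Fin.cons (g j) (fun i => (1 - g j) * h i), ?_, ?_, ?_⟩
        · intro i c
          refine Fin.cases ?_ (fun i => ?_) i
          · simpa using g0 j c
          · have : 0 ≤ (1 - g j c) * h i c := mul_nonneg (by linarith [g1 j c]) (h0 i c)
            simpa using this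
        · intro c
          rw [Fin.sum_univ_succ]
          simp only [Fin.cons_zero, Fin.cons_succ, Pi.mul_apply, Pi.sub_apply, Pi.one_apply]
          rw [← Finset.mul_sum]
          have a1 := h1 c
          have a2 := g1 j c
          have a3 : (1 - g j c) * ∑ i, h i c ≤ (1 - g j c) * 1 :=
            mul_le_mul_of_nonneg_left a1 (by linarith)
          linarith
        · rw [Fin.sum_univ_succ]
          simp only [Fin.cons_zero, Fin.cons_succ]
      have hs2 : ∑ i, (α i ^ q - q * (α i ^ (q - 1) * φ i (T (g j * (h i * D))))) ≤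
          ∑ i, ‖T (((1 - g j) * h i) * D)‖ ^ q := Finset.sum_le_sum fun i _ => hlow i
      rw [Finset.sum_sub_distrib, ← Finset.mul_sum] at hs2
      have hr' : Wt - ε < ∑ i, α i ^ q := hr
      have : lam (g j) = ∑ i, α i ^ (q - 1) * φ i (T (g j * (h i * D))) := rfl
      rw [← this] at hs2
      linarith
    calc ∑ i, ‖T (g i * D)‖ ^ q ≤ ∑ i, (ε + q * lam (g i)) := Finset.sum_le_sum fun i _ => one i
      _ = (Fintype.card ι) * ε + q * lam (∑ i, g i) := by
          rw [Finset.sum_add_distrib, Finset.sum_const, Finset.card_univ, nsmul_eq_mul,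
            ← Finset.mul_sum, lam_sum]
      _ ≤ (Fintype.card ι) * ε + q * (w * Wt) := by
          have h11 : ∑ i, α i ^ q ≤ Wt := le_csSup hbdd ⟨N, h, h0, h1, rfl⟩
          have h12 : lam (∑ i, g i) ≤ w * Wt :=
            lam_le.trans (mul_le_mul_of_nonneg_left h11 hw)
          have h13 : q * lam (∑ i, g i) ≤ q * (w * Wt) := mul_le_mul_of_nonneg_left h12 hq0
          linarith
  have hfin : ∑ i, ‖T (g i * D)‖ ^ q ≤ q * (w * Wt) := by
    apply le_of_forall_pos_le_add
    intro ε hε
    have hc : (0 : ℝ) ≤ Fintype.card ι := by positivity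
    have h14 := key (ε / (Fintype.card ι + 1)) (by positivity)
    have h15 : (Fintype.card ι : ℝ) * (ε / (Fintype.card ι + 1)) ≤ ε := by
      rw [mul_div_assoc', div_le_iff₀ (by positivity)]
      nlinarith
    linarith
  refine hfin.trans ?_
  calc q * (w * Wt) ≤ q * (w * (C ^ q * ‖T D‖ ^ q)) :=
        mul_le_mul_of_nonneg_left (mul_le_mul_of_nonneg_left hWC hw) hq0
    _ = _ := by ring

end

end Pool.Agent.H16.MC
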