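import Mathlib
import Pool.Agent.H16.MC.Pis

set_option autoImplicit false

namespace Pool.Agent.H16.MC
open Finset

universe u

lemma univ_units : (Finset.univ : Finset ℤˣ) = {1, -1} := by decide

/-- exponential moments of Rademacher sums -/
lemma exp_sum {k : ℕ} (h : Fin k → ℝ) (t : ℝ) (hh : ∑ j, h j ^ 2 ≤ 1) :
    ∑ σ : Fin k → ℤˣ, Real.exp (t * ∑ j, ((σ j : ℤ) : ℝ) * h j) ≤
      2 ^ k * Real.exp (t ^ 2 / 2) := by
  have e1 : ∀ σ : Fin k → ℤˣ, Real.exp (t * ∑ j, ((σ j : ℤ) : ℝ) * h j) =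
      ∏ j, Real.exp (((σ j : ℤ) : ℝ) * (t * h j)) := by
    intro σ
    rw [← Real.exp_sum, Finset.mul_sum]
    congr 1
    exact Finset.sum_congr rfl fun j _ => by ring
  simp only [e1]
  have e2 : ∑ σ : Fin k → ℤˣ, ∏ j, Real.exp (((σ j : ℤ) : ℝ) * (t * h j)) =
      ∏ j, ∑ s : ℤˣ, Real.exp (((s : ℤ) : ℝ) * (t * h j)) := by
    rw [Finset.prod_univ_sum, Fintype.piFinset_univ]
  rw [e2]
  have e3 : ∀ j ∈ (Finset.univ : Finset (Fin k)), ∑ s : ℤˣ, Real.exp (((s : ℤ) : ℝ) * (t * h j)) ≤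
      2 * Real.exp ((t * h j) ^ 2 / 2) := by
    intro j _
    rw [univ_units, Finset.sum_pair (by decide)]
    have := Real.cosh_le_exp_half_sq (t * h j)
    rw [Real.cosh_eq] at this
    simp only [Units.val_one, Int.cast_one, one_mul, Units.val_neg, Int.cast_neg, neg_mul]
    linarith
  refine (Finset.prod_le_prod (fun j _ => Finset.sum_nonneg fun s _ => (Real.exp_pos _).le)
    e3).trans ?_
  rw [Finset.prod_mul_distrib, Finset.prod_const, Finset.card_univ, Fintype.card_fin,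
    ← Real.exp_sum]
  apply mul_le_mul_of_nonneg_left _ (by positivity)
  apply Real.exp_le_exp.mpr
  have e4 : ∑ j, (t * h j) ^ 2 / 2 = t ^ 2 / 2 * ∑ j, h j ^ 2 := by
    rw [Finset.mul_sum]
    exact Finset.sum_congr rfl fun j _ => by ring
  rw [e4]
  have : 0 ≤ t ^ 2 / 2 := by positivity
  nlinarith

/-- the slice of `x` between `2^l` and `2^(l+1)`, normalised -/
noncomputable def slc (l : ℕ) (x : ℝ) : ℝ := (min |x| (2 ^ (l + 1)) - min |x| (2 ^ l)) / 2 ^ l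

lemma slc_nonneg (l : ℕ) (x : ℝ) : 0 ≤ slc l x := by
  unfold slc
  apply div_nonneg _ (by positivity)
  have : (2 : ℝ) ^ l ≤ 2 ^ (l + 1) := pow_le_pow_right₀ (by norm_num) (by omega)
  linarith [min_le_min_left |x| this]

lemma slc_le_one (l : ℕ) (x : ℝ) : slc l x ≤ 1 := by
  unfold slc
  have h2 : (0 : ℝ) < 2 ^ l := by positivity
  rw [div_le_one h2]
  have e : (2 : ℝ) ^ (l + 1) = 2 ^ l + 2 ^ l := by ring
  rcases le_total |x| (2 ^ l) with h | h
  · rw [min_eq_left h, min_eq_left (by linarith)]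
    linarith
  · rw [min_eq_right h]
    have := min_le_right |x| (2 ^ (l + 1))
    linarith

lemma slc_le (l : ℕ) (x : ℝ) : slc l x ≤ Real.exp (-((2 : ℝ) ^ l) ^ 2) *
    (Real.exp (2 ^ l * x) + Real.exp (-(2 ^ l) * x)) := by
  have h2 : (0 : ℝ) < 2 ^ l := by positivity
  rcases le_total |x| (2 ^ l) with h | h
  · have : slc l x = 0 := by
      unfold slc
      have e : (2 : ℝ) ^ (l + 1) = 2 ^ l + 2 ^ l := by ring
      rw [min_eq_left h, min_eq_left (by linarith)]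
      simp
    rw [this]; positivity
  · refine (slc_le_one l x).trans ?_
    rw [mul_add, ← Real.exp_add, ← Real.exp_add]
    rcases le_total 0 x with hx | hx
    · rw [abs_of_nonneg hx] at h
      have : 1 ≤ Real.exp (-((2 : ℝ) ^ l) ^ 2 + 2 ^ l * x) := by
        apply Real.one_le_exp
        nlinarith
      linarith [Real.exp_pos (-((2 : ℝ) ^ l) ^ 2 + -(2 ^ l) * x)]
    · rw [abs_of_nonpos hx] at h
      have : 1 ≤ Real.exp (-((2 : ℝ) ^ l) ^ 2 + -(2 ^ l) * x) := by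
        apply Real.one_le_exp
        nlinarith
      linarith [Real.exp_pos (-((2 : ℝ) ^ l) ^ 2 + 2 ^ l * x)]

lemma slc_tele (L : ℕ) (x : ℝ) (hx : |x| ≤ 2 ^ L) :
    |x| ≤ 1 + ∑ l ∈ range L, 2 ^ l * slc l x := by
  have e : ∑ l ∈ range L, 2 ^ l * slc l x = min |x| (2 ^ L) - min |x| 1 := by
    have e1 : ∀ l ∈ range L, 2 ^ l * slc l x = min |x| (2 ^ (l + 1)) - min |x| (2 ^ l) := by
      intro l _
      unfold slc
      field_simp
    rw [Finset.sum_congr rfl e1, Finset.sum_range_sub (fun l => min |x| (2 ^ l))]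
    simp
  rw [e, min_eq_left hx]
  linarith [min_le_right |x| 1]

lemma cvx {q : ℝ} (hq : 1 ≤ q) (L : ℕ) : ∀ a : ℕ → ℝ, (∀ l, 0 ≤ a l) →
    (∑ l ∈ range L, a l) ^ q ≤ ∑ l ∈ range L, (2 : ℝ) ^ (((l : ℝ) + 1) * (q - 1)) * a l ^ q := by
  induction L with
  | zero => intro a _; simp [Real.zero_rpow (by linarith : q ≠ 0)]
  | succ L ih =>
    intro a ha
    rw [Finset.sum_range_succ', Finset.sum_range_succ']
    refine (two_pow (Finset.sum_nonneg fun l _ => ha _) (ha 0) hq).trans ?_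
    rw [mul_add]
    apply add_le_add
    · refine (mul_le_mul_of_nonneg_left (ih (fun l => a (l + 1)) fun l => ha _)
        (by positivity)).trans (le_of_eq ?_)
      rw [Finset.mul_sum]
      apply Finset.sum_congr rfl
      intro l _
      rw [← mul_assoc, ← Real.rpow_add (by norm_num)]
      congr 2
      push_cast
      ring
    · apply le_of_eq
      congr 2
      push_cast
      ring

/-- a numerical constant -/
noncomputable def Mq (q : ℝ) : ℝ := 4 ^ q * (Nat.factorial ⌈q⌉₊ * 2 ^ ⌈q⌉₊)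

lemma Mq_nonneg (q : ℝ) : 0 ≤ Mq q := by unfold Mq; positivity

lemma coef {q : ℝ} (hq : 1 ≤ q) (l : ℕ) :
    (2 : ℝ) ^ (((l : ℝ) + 2) * (q - 1)) * ((2 : ℝ) ^ l) ^ q * Real.exp (-((2 : ℝ) ^ l) ^ 2 / 2) ≤
      Mq q * (1 / 2) ^ l := by
  set N := ⌈q⌉₊ with hN
  have hqN : q ≤ N := Nat.le_ceil q
  have hx : (0 : ℝ) ≤ ((2 : ℝ) ^ l) ^ 2 / 2 := by positivity
  have h1 := Real.pow_div_factorial_le_exp _ hx N
  have h2 : Real.exp (-((2 : ℝ) ^ l) ^ 2 / 2) ≤ (N.factorial * 2 ^ N) / (2 : ℝ) ^ (2 * (l : ℝ) * N) := by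
    rw [le_div_iff₀ (by positivity), neg_div, Real.exp_neg]
    have h3 : (2 : ℝ) ^ (2 * (l : ℝ) * N) = (((2 : ℝ) ^ l) ^ 2 / 2) ^ N * 2 ^ N := by
      rw [div_pow, div_mul_cancel₀ _ (by positivity), ← pow_mul, ← pow_mul, ← Real.rpow_natCast]
      congr 1
      push_cast
      ring
    rw [h3]
    rw [div_le_iff₀ (by positivity)] at h1
    rw [inv_mul_le_iff₀ (Real.exp_pos _)]
    have h4 : (((2 : ℝ) ^ l) ^ 2 / 2) ^ N * 2 ^ N ≤
        (Real.exp (((2 : ℝ) ^ l) ^ 2 / 2) * N.factorial) * 2 ^ N :=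
      mul_le_mul_of_nonneg_right h1 (by positivity)
    linarith
  have h5 : ((2 : ℝ) ^ l) ^ q = (2 : ℝ) ^ ((l : ℝ) * q) := by
    rw [← Real.rpow_natCast, ← Real.rpow_mul (by norm_num)]
  have h6 : ((1 : ℝ) / 2) ^ l = (2 : ℝ) ^ (-(l : ℝ)) := by
    rw [Real.rpow_neg (by norm_num), Real.rpow_natCast, one_div, inv_pow]
  have h4q : (4 : ℝ) ^ q = 2 ^ (2 * q) := by
    rw [Real.rpow_mul (by norm_num)]; norm_num
  rw [h5, h6, ← Real.rpow_add (by norm_num)]
  calc (2 : ℝ) ^ (((l : ℝ) + 2) * (q - 1) + l * q) * Real.exp (-((2 : ℝ) ^ l) ^ 2 / 2)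
      ≤ (2 : ℝ) ^ (((l : ℝ) + 2) * (q - 1) + l * q) *
        ((N.factorial * 2 ^ N) / (2 : ℝ) ^ (2 * (l : ℝ) * N)) :=
        mul_le_mul_of_nonneg_left h2 (by positivity)
    _ = (N.factorial * 2 ^ N) * (2 : ℝ) ^ ((((l : ℝ) + 2) * (q - 1) + l * q) -
        (2 * (l : ℝ) * N)) := by
        rw [Real.rpow_sub (by norm_num)]; ring
    _ ≤ (N.factorial * 2 ^ N) * (2 : ℝ) ^ (2 * q + -(l : ℝ)) := by
        apply mul_le_mul_of_nonneg_left _ (by positivity)
        apply Real.rpow_le_rpow_of_exponent_le (by norm_num)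
        have hl : (0 : ℝ) ≤ l := by positivity
        nlinarith
    _ = Mq q * 2 ^ (-(l : ℝ)) := by
        unfold Mq
        rw [Real.rpow_add (by norm_num), h4q]
        ring

section
variable {Y : Type u} [NormedAddCommGroup Y] [NormedSpace ℝ Y] {d : ℕ} {q C : ℝ}
  {T : (Fin d → ℝ) →ₗ[ℝ] Y}

/-- the constant in the lower square function estimate -/
noncomputable def Kc (q C : ℝ) : ℝ := C * (2 ^ (q - 1) + 4 * q * Mq q * C ^ q) ^ (1 / q)

theorem rad_le (hT : Solid T) (hC : Cot Y q C) (hC0 : 0 ≤ C) (hq : 1 ≤ q) {k : ℕ}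
    (a : Fin k → Fin d → ℝ) :
    (∑ σ : Fin k → ℤˣ, ‖∑ j, (σ j : ℤ) • T (a j)‖ ^ q) ≤
      2 ^ k * ((2 ^ (q - 1) + 4 * q * Mq q * C ^ q) *
        ‖T (fun i => √(∑ j, (a j i) ^ 2))‖ ^ q) := by
  have hq0 : 0 ≤ q := by linarith
  set D : Fin d → ℝ := fun i => √(∑ j, (a j i) ^ 2) with hD
  have hD0 : ∀ i, 0 ≤ D i := fun i => Real.sqrt_nonneg _
  have hDsq : ∀ i, D i ^ 2 = ∑ j, (a j i) ^ 2 := fun i =>
    Real.sq_sqrt (Finset.sum_nonneg fun _ _ => sq_nonneg _)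
  set h : Fin k → Fin d → ℝ := fun j i => a j i / D i with hh
  have hah : ∀ j i, a j i = h j i * D i := by
    intro j i
    simp only [hh]
    rcases eq_or_ne (D i) 0 with h0 | h0
    · have h1 : ∑ j, (a j i) ^ 2 = 0 := by rw [← hDsq, h0]; norm_num
      have h2 := (Finset.sum_eq_zero_iff_of_nonneg (fun j _ => sq_nonneg (a j i))).mp h1 j
        (Finset.mem_univ j)
      have h3 : a j i = 0 := by simpa using h2
      rw [h3, h0]; simp
    · rw [div_mul_cancel₀ _ h0]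
  have hh1 : ∀ i, ∑ j, h j i ^ 2 ≤ 1 := by
    intro i
    simp only [hh, div_pow]
    rw [← Finset.sum_div, ← hDsq]
    exact div_self_le_one _
  have hhabs : ∀ j i, |h j i| ≤ 1 := by
    intro j i
    have := (Finset.single_le_sum (f := fun j => h j i ^ 2) (fun _ _ => sq_nonneg _)
      (Finset.mem_univ j)).trans (hh1 i)
    exact abs_le_one_iff_mul_self_le_one.mpr (by simpa [sq] using this)
  set G : (Fin k → ℤˣ) → Fin d → ℝ := fun σ i => ∑ j, ((σ j : ℤ) : ℝ) * h j i with hG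
  have hGk : ∀ σ i, |G σ i| ≤ 2 ^ k := by
    intro σ i
    have h1 : |G σ i| ≤ k := by
      refine (Finset.abs_sum_le_sum_abs _ _).trans ?_
      have h2 : ∀ j ∈ (univ : Finset (Fin k)), |((σ j : ℤ) : ℝ) * h j i| ≤ 1 := by
        intro j _
        rw [abs_mul, unit_abs, one_mul]
        exact hhabs j i
      refine (Finset.sum_le_sum h2).trans ?_
      simp
    refine h1.trans ?_
    exact_mod_cast (Nat.lt_two_pow_self (n := k)).le
  -- pointwise bound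
  have hpt : ∀ σ : Fin k → ℤˣ, ‖∑ j, (σ j : ℤ) • T (a j)‖ ^ q ≤
      2 ^ (q - 1) * ‖T D‖ ^ q + ∑ l ∈ range k, (2 : ℝ) ^ (((l : ℝ) + 2) * (q - 1)) *
        (((2 : ℝ) ^ l) ^ q * ‖T ((fun i => slc l (G σ i)) * D)‖ ^ q) := by
    intro σ
    have e : ∑ j, (σ j : ℤ) • T (a j) = T (∑ j, (σ j : ℤ) • a j) := by
      rw [map_sum]
      exact Finset.sum_congr rfl fun j _ => (map_zsmul T _ _).symm
    have h1 : ‖∑ j, (σ j : ℤ) • T (a j)‖ ≤
        ‖T (D + ∑ l ∈ range k, (2 : ℝ) ^ l • ((fun i => slc l (G σ i)) * D))‖ := by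
      rw [e]
      apply hT
      intro i
      have e2 : (∑ j, (σ j : ℤ) • a j) i = G σ i * D i := by
        simp only [Finset.sum_apply, hG]
        rw [Finset.sum_mul]
        refine Finset.sum_congr rfl fun j _ => ?_
        have e9 : ((σ j : ℤ) • a j) i = ((σ j : ℤ) : ℝ) * a j i := by simp
        rw [e9, hah]; ring
      have e3 : (D + ∑ l ∈ range k, (2 : ℝ) ^ l • ((fun i => slc l (G σ i)) * D)) i =
          (1 + ∑ l ∈ range k, 2 ^ l * slc l (G σ i)) * D i := by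
        simp only [Pi.add_apply, Finset.sum_apply, Pi.smul_apply, Pi.mul_apply, smul_eq_mul]
        rw [add_mul, one_mul, Finset.sum_mul]
        congr 1
        exact Finset.sum_congr rfl fun j _ => by ring
      have h2 := slc_tele k (G σ i) (hGk σ i)
      rw [e2, e3, abs_mul, abs_mul]
      apply mul_le_mul_of_nonneg_right _ (abs_nonneg _)
      exact h2.trans (le_abs_self _)
    have h3 : ‖∑ j, (σ j : ℤ) • T (a j)‖ ≤ ‖T D‖ +
        ∑ l ∈ range k, 2 ^ l * ‖T ((fun i => slc l (G σ i)) * D)‖ := by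
      refine h1.trans ?_
      rw [map_add, map_sum]
      refine (norm_add_le _ _).trans ?_
      apply add_le_add le_rfl
      refine (norm_sum_le _ _).trans (le_of_eq ?_)
      apply Finset.sum_congr rfl
      intro l _
      rw [map_smul, norm_smul, Real.norm_of_nonneg (by positivity)]
    refine (Real.rpow_le_rpow (norm_nonneg _) h3 hq0).trans ?_
    refine (two_pow (norm_nonneg _) (Finset.sum_nonneg fun l _ => by positivity) hq).trans ?_
    rw [mul_add]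
    apply add_le_add le_rfl
    refine (mul_le_mul_of_nonneg_left (cvx hq k _ fun l => by positivity)
      (by positivity)).trans (le_of_eq ?_)
    rw [Finset.mul_sum]
    apply Finset.sum_congr rfl
    intro l _
    rw [← mul_assoc, ← Real.rpow_add (by norm_num), Real.mul_rpow (by positivity) (norm_nonneg _)]
    congr 2
    ring
  -- the slices
  have hsl : ∀ l ∈ range k, ∑ σ : Fin k → ℤˣ, ‖T ((fun i => slc l (G σ i)) * D)‖ ^ q ≤
      q * (2 ^ k * (2 * Real.exp (-((2 : ℝ) ^ l) ^ 2 / 2))) * (C ^ q * ‖T D‖ ^ q) := by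
    intro l _
    apply pis hT hC hC0 hq hD0 (fun σ i => slc l (G σ i)) (fun _ _ => slc_nonneg _ _)
      (fun _ _ => slc_le_one _ _) (by positivity)
    intro i
    have h1 : ∀ σ ∈ (univ : Finset (Fin k → ℤˣ)), slc l (G σ i) ≤
        Real.exp (-((2 : ℝ) ^ l) ^ 2) * (Real.exp (2 ^ l * G σ i) + Real.exp (-(2 ^ l) * G σ i)) :=
      fun σ _ => slc_le l _
    refine (Finset.sum_le_sum h1).trans ?_
    rw [← Finset.mul_sum, Finset.sum_add_distrib]
    have h2 := exp_sum (fun j => h j i) (2 ^ l) (hh1 i)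
    have h3 := exp_sum (fun j => h j i) (-(2 ^ l)) (hh1 i)
    have e5 : (-(2 : ℝ) ^ l) ^ 2 = ((2 : ℝ) ^ l) ^ 2 := by ring
    rw [e5] at h3
    calc Real.exp (-((2 : ℝ) ^ l) ^ 2) * (∑ σ, Real.exp (2 ^ l * G σ i) +
        ∑ σ, Real.exp (-(2 ^ l) * G σ i)) ≤ Real.exp (-((2 : ℝ) ^ l) ^ 2) *
          (2 ^ k * Real.exp (((2 : ℝ) ^ l) ^ 2 / 2) + 2 ^ k * Real.exp (((2 : ℝ) ^ l) ^ 2 / 2)) :=
          mul_le_mul_of_nonneg_left (add_le_add h2 h3) (Real.exp_pos _).le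
      _ = 2 ^ k * (2 * (Real.exp (-((2 : ℝ) ^ l) ^ 2) * Real.exp (((2 : ℝ) ^ l) ^ 2 / 2))) := by
          ring
      _ = 2 ^ k * (2 * Real.exp (-((2 : ℝ) ^ l) ^ 2 / 2)) := by
          rw [← Real.exp_add]
          congr 3
          ring
  refine (Finset.sum_le_sum fun σ _ => hpt σ).trans ?_
  rw [Finset.sum_add_distrib, Finset.sum_comm, Finset.sum_const, card_sgn, nsmul_eq_mul]
  have h4 : ∀ l ∈ range k, ∑ σ : Fin k → ℤˣ, (2 : ℝ) ^ (((l : ℝ) + 2) * (q - 1)) *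
        (((2 : ℝ) ^ l) ^ q * ‖T ((fun i => slc l (G σ i)) * D)‖ ^ q) ≤
      2 ^ k * (2 * q * Mq q * C ^ q * ‖T D‖ ^ q) * (1 / 2) ^ l := by
    intro l hl
    rw [← Finset.mul_sum, ← Finset.mul_sum]
    calc (2 : ℝ) ^ (((l : ℝ) + 2) * (q - 1)) * (((2 : ℝ) ^ l) ^ q *
        ∑ σ : Fin k → ℤˣ, ‖T ((fun i => slc l (G σ i)) * D)‖ ^ q) ≤
        (2 : ℝ) ^ (((l : ℝ) + 2) * (q - 1)) * (((2 : ℝ) ^ l) ^ q *
        (q * (2 ^ k * (2 * Real.exp (-((2 : ℝ) ^ l) ^ 2 / 2))) * (C ^ q * ‖T D‖ ^ q))) := by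
          apply mul_le_mul_of_nonneg_left _ (by positivity)
          apply mul_le_mul_of_nonneg_left _ (by positivity)
          exact hsl l hl
      _ = ((2 : ℝ) ^ (((l : ℝ) + 2) * (q - 1)) * ((2 : ℝ) ^ l) ^ q *
          Real.exp (-((2 : ℝ) ^ l) ^ 2 / 2)) * (2 ^ k * (2 * q) * (C ^ q * ‖T D‖ ^ q)) := by ring
      _ ≤ (Mq q * (1 / 2) ^ l) * (2 ^ k * (2 * q) * (C ^ q * ‖T D‖ ^ q)) := by
          apply mul_le_mul_of_nonneg_right (coef hq l)
          have := Real.rpow_nonneg hC0 q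
          positivity
      _ = _ := by ring
  have h5 : ∑ l ∈ range k, ((1 : ℝ) / 2) ^ l ≤ 2 := by
    have := geom_sum_eq (by norm_num : (1 / 2 : ℝ) ≠ 1) k
    rw [this]
    have : (0 : ℝ) ≤ (1 / 2) ^ k := by positivity
    rw [div_le_iff_of_neg (by norm_num)]
    linarith
  have h6 := Finset.sum_le_sum h4
  rw [← Finset.mul_sum] at h6
  have hCq := Real.rpow_nonneg hC0 q
  have hM := Mq_nonneg q
  have h7 : 2 ^ k * (2 * q * Mq q * C ^ q * ‖T D‖ ^ q) * ∑ l ∈ range k, ((1 : ℝ) / 2) ^ l ≤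
      2 ^ k * (2 * q * Mq q * C ^ q * ‖T D‖ ^ q) * 2 :=
    mul_le_mul_of_nonneg_left h5 (by positivity)
  push_cast
  calc _ ≤ (2 : ℝ) ^ k * (2 ^ (q - 1) * ‖T D‖ ^ q) +
      2 ^ k * (2 * q * Mq q * C ^ q * ‖T D‖ ^ q) * 2 := add_le_add le_rfl (h6.trans h7)
    _ = _ := by ring

theorem conc_of_cot (hT : Solid T) (hC : Cot Y q C) (hC0 : 0 ≤ C) (hq : 1 ≤ q) :
    Conc T q (Kc q C) := by
  intro k a
  have h1 := hC k fun j => T (a j)
  have h2 := rad_le hT hC hC0 hq a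
  have hCq := Real.rpow_nonneg hC0 q
  have hM := Mq_nonneg q
  refine h1.trans ?_
  have h3 : (∑ σ : Fin k → ℤˣ, ‖∑ j, (σ j : ℤ) • T (a j)‖ ^ q) / 2 ^ k ≤
      (2 ^ (q - 1) + 4 * q * Mq q * C ^ q) * ‖T (fun i => √(∑ j, (a j i) ^ 2))‖ ^ q := by
    rw [div_le_iff₀ (by positivity)]
    linarith
  refine (mul_le_mul_of_nonneg_left h3 hCq).trans (le_of_eq ?_)
  unfold Kc
  have hpos : 0 ≤ (2 : ℝ) ^ (q - 1) + 4 * q * Mq q * C ^ q := by positivity
  rw [Real.mul_rpow hC0 (Real.rpow_nonneg hpos _), ← Real.rpow_mul hpos,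
    one_div_mul_cancel (by linarith), Real.rpow_one]
  ring

end

end Pool.Agent.H16.MC
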