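import Mathlib
import Pool.Agent.H16.MC.Lattice

set_option autoImplicit false

namespace Pool.Agent.H16.MC
open Finset

universe u

section
variable {n m : ℕ} [NeZero m] {Y : Type u} [NormedAddCommGroup Y] [NormedSpace ℝ Y] {q K : ℝ}

/-- the metric cotype inequality -/
def MCI (Y : Type u) [NormedAddCommGroup Y] (q K : ℝ) (n m : ℕ) [NeZero m] : Prop :=
  ∀ f : (Fin n → ZMod m) → Y,
    ∑ j : Fin n, (∑ x : Fin n → ZMod m, ‖f (x + (m / 2) • Pi.single j 1) - f x‖ ^ q) /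
        (m : ℝ) ^ n ≤
      K ^ q * (m : ℝ) ^ q * ((∑ x : Fin n → ZMod m,
        ∑ ε ∈ Fintype.piFinset (fun _ : Fin n => ({-1, 0, 1} : Finset ℤ)),
          ‖f (x + fun j => (ε j : ZMod m)) - f x‖ ^ q) / ((m : ℝ) ^ n * 3 ^ n))

/-- local solid models satisfying a lower `q`-estimate for square functions -/
def LocSq (Y : Type u) [NormedAddCommGroup Y] [NormedSpace ℝ Y] (q K : ℝ) : Prop :=
  ∀ (s : Finset Y) (δ : ℝ), 0 < δ → ∃ (d : ℕ) (T : (Fin d → ℝ) →ₗ[ℝ] Y),
    Solid T ∧ Conc T q K ∧ ∀ y ∈ s, ∃ c : Fin d → ℝ, ‖y - T c‖ ≤ δ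

theorem mci_of_locSq (hY : LocSq Y q K) (hK : 1 ≤ K) (hq : 2 ≤ q) (hm : Even m)
    (hmn : (n : ℝ) ^ (1 / q) ≤ m) : MCI Y q (288 * K) n m := by
  classical
  intro f
  have hq0 : 0 ≤ q := by linarith
  have hm0 : (0 : ℝ) < m := by exact_mod_cast Nat.pos_of_ne_zero (NeZero.ne m)
  have hmn' : (n : ℝ) ≤ (m : ℝ) ^ q := by
    have h := Real.rpow_le_rpow (by positivity) hmn hq0
    rwa [← Real.rpow_mul (by positivity), one_div_mul_cancel (by linarith), Real.rpow_one] at h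
  have hex : ∀ k : ℕ, ∃ F : (Fin n → ZMod m) → Y, (∀ x, ‖f x - F x‖ ≤ 1 / ((k : ℝ) + 1)) ∧
      ∑ j : Fin n, ∑ x, ‖F (x + (m / 2) • ee j) - F x‖ ^ q ≤ (288 * K * m) ^ q *
      ((∑ ε ∈ Fintype.piFinset (fun _ : Fin n => ({-1, 0, 1} : Finset ℤ)),
        ∑ x, ‖F (x + fun j => (ε j : ZMod m)) - F x‖ ^ q) / 3 ^ n) := by
    intro k
    obtain ⟨d, T, hS, hC, hs⟩ := hY (univ.image f) (1 / ((k : ℝ) + 1)) (by positivity)
    choose c hc using fun x => hs (f x) (Finset.mem_image_of_mem f (Finset.mem_univ x))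
    refine ⟨fun x => T (c x), hc, ?_⟩
    have h := main_solid (c := c) hS hC hK hq hm hmn'
    simpa only [cost, map_sub] using h
  choose F hF1 hF2 using hex
  have hlim : Filter.Tendsto F Filter.atTop (nhds f) := by
    rw [tendsto_pi_nhds]
    intro x
    rw [tendsto_iff_norm_sub_tendsto_zero]
    refine squeeze_zero (fun _ => norm_nonneg _) (fun k => ?_)
      tendsto_one_div_add_atTop_nhds_zero_nat
    rw [norm_sub_rev]
    exact hF1 k x
  have c1 : Continuous fun G : (Fin n → ZMod m) → Y =>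
      ∑ j : Fin n, ∑ x, ‖G (x + (m / 2) • ee j) - G x‖ ^ q := by
    refine continuous_finset_sum _ fun j _ => continuous_finset_sum _ fun x _ => ?_
    exact Continuous.rpow_const (by fun_prop) fun _ => Or.inr hq0
  have c2 : Continuous fun G : (Fin n → ZMod m) → Y => (288 * K * m) ^ q *
      ((∑ ε ∈ Fintype.piFinset (fun _ : Fin n => ({-1, 0, 1} : Finset ℤ)),
        ∑ x, ‖G (x + fun j => (ε j : ZMod m)) - G x‖ ^ q) / 3 ^ n) := by
    refine Continuous.mul continuous_const (Continuous.div_const ?_ _)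
    refine continuous_finset_sum _ fun j _ => continuous_finset_sum _ fun x _ => ?_
    exact Continuous.rpow_const (by fun_prop) fun _ => Or.inr hq0
  have hfin := le_of_tendsto_of_tendsto' ((c1.tendsto f).comp hlim) ((c2.tendsto f).comp hlim) hF2
  have hmn0 : (0 : ℝ) < (m : ℝ) ^ n := by positivity
  rw [← Finset.sum_div, div_le_iff₀ hmn0]
  refine hfin.trans (le_of_eq ?_)
  rw [Finset.sum_comm, Real.mul_rpow (by linarith) hm0.le]
  field_simp

end

end Pool.Agent.H16.MC
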