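import Mathlib
import Pool.Agent.H16.MC.Khin
import Pool.Agent.H16.MC.Lim

set_option autoImplicit false

namespace Pool.Agent.H16.MC
open Finset

universe u

section grp
variable {E : Type u} [AddCommGroup E] [Lattice E] [IsOrderedAddMonoid E]

lemma disj_add {a b e : E} (h : a ⊓ b = 0) (ha : a ≤ e) (hb : b ≤ e) : a + b ≤ e := by
  rw [← inf_add_sup a b, h, zero_add]
  exact sup_le ha hb

lemma inf_sub_add {a b c : E} (ha : 0 ≤ a) (hb : 0 ≤ b) (hc : 0 ≤ c) :
    (a + b) ⊓ c ≤ a ⊓ c + b ⊓ c := by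
  rw [← sub_le_iff_le_add', sub_inf]
  apply sup_le
  · apply le_inf
    · rw [sub_le_iff_le_add']; exact inf_le_left
    · refine le_trans (sub_le_self _ ha) inf_le_right
  · have : (a + b) ⊓ c - c ≤ 0 := sub_nonpos.mpr inf_le_right
    exact le_inf (this.trans hb) (this.trans hc)

lemma sum_inf_le {ι : Type*} (s : Finset ι) (a : ι → E) (ha : ∀ i, 0 ≤ a i) {c : E} (hc : 0 ≤ c) :
    (∑ i ∈ s, a i) ⊓ c ≤ ∑ i ∈ s, a i ⊓ c := by
  classical
  induction s using Finset.induction_on with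
  | empty => simp [inf_eq_left.mpr hc]
  | insert i s hi ih =>
    rw [Finset.sum_insert hi, Finset.sum_insert hi]
    refine (inf_sub_add (ha i) (Finset.sum_nonneg fun j _ => ha j) hc).trans ?_
    exact add_le_add_right ih _

lemma sum_le_of_disj {ι : Type*} (s : Finset ι) (a : ι → E) (ha : ∀ i, 0 ≤ a i)
    (hd : ∀ i j, i ≠ j → a i ⊓ a j = 0) {e : E} (he : 0 ≤ e) (hae : ∀ i, a i ≤ e) :
    ∑ i ∈ s, a i ≤ e := by
  classical
  induction s using Finset.induction_on with
  | empty => simpa using he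
  | insert i s hi ih =>
    rw [Finset.sum_insert hi]
    apply disj_add _ (hae i) ih
    apply le_antisymm
    · rw [inf_comm]
      refine (sum_inf_le s a ha (ha i)).trans (le_of_eq ?_)
      apply Finset.sum_eq_zero
      intro j hj
      exact hd j i (fun h => hi (h ▸ hj))
    · exact le_inf (ha i) (Finset.sum_nonneg fun j _ => ha j)

/-- components of `e` -/
def IsC (e p : E) : Prop := 0 ≤ p ∧ p ≤ e ∧ p ⊓ (e - p) = 0

/-- refinement of a partition of `e` by a component -/
lemma refine_part {e p : E} (hp : IsC e p) {ι : Type} [Fintype ι] (a : ι → E)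
    (ha : ∀ i, 0 ≤ a i) (hd : ∀ i j, i ≠ j → a i ⊓ a j = 0) (hs : ∑ i, a i = e) :
    (∀ x : ι × Bool, 0 ≤ (if x.2 then a x.1 ⊓ p else a x.1 - a x.1 ⊓ p)) ∧
    (∀ x y : ι × Bool, x ≠ y → (if x.2 then a x.1 ⊓ p else a x.1 - a x.1 ⊓ p) ⊓
      (if y.2 then a y.1 ⊓ p else a y.1 - a y.1 ⊓ p) = 0) ∧
    (∑ x : ι × Bool, (if x.2 then a x.1 ⊓ p else a x.1 - a x.1 ⊓ p)) = e ∧
    p = ∑ i, a i ⊓ p := by
  obtain ⟨p0, pe, pd⟩ := hp
  have hae : ∀ i, a i ≤ e := fun i => by
    rw [← hs]; exact Finset.single_le_sum (fun j _ => ha j) (Finset.mem_univ i)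
  have h0 : ∀ x : ι × Bool, 0 ≤ (if x.2 then a x.1 ⊓ p else a x.1 - a x.1 ⊓ p) := by
    rintro ⟨i, b⟩
    cases b
    · simp
    · simpa using ⟨ha i, p0⟩
  have hle : ∀ x : ι × Bool, (if x.2 then a x.1 ⊓ p else a x.1 - a x.1 ⊓ p) ≤ a x.1 := by
    rintro ⟨i, b⟩
    cases b
    · simpa using ⟨ha i, p0⟩
    · simp
  have hcross : ∀ i, (a i ⊓ p) ⊓ (a i - a i ⊓ p) = 0 := by
    intro i
    apply le_antisymm
    · rw [← pd]
      apply inf_le_inf inf_le_right
      rw [sub_inf, sub_self]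
      exact sup_le (sub_nonneg.mpr pe) (sub_le_sub_right (hae i) p)
    · exact le_inf (le_inf (ha i) p0) (sub_nonneg.mpr inf_le_left)
  refine ⟨h0, ?_, ?_, ?_⟩
  · rintro ⟨i, b⟩ ⟨j, c⟩ hne
    by_cases hij : i = j
    · subst hij
      cases b <;> cases c
      · exact absurd rfl hne
      · simp only [Bool.false_eq_true, if_false, if_true]
        rw [inf_comm]; exact hcross i
      · simp only [Bool.false_eq_true, if_false, if_true]
        exact hcross i
      · exact absurd rfl hne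
    · apply le_antisymm
      · rw [← hd i j hij]
        exact inf_le_inf (hle (i, b)) (hle (j, c))
      · exact le_inf (h0 (i, b)) (h0 (j, c))
  · rw [Fintype.sum_prod_type]
    simp only [Fintype.sum_bool, if_true, Bool.false_eq_true, if_false]
    rw [← hs]
    exact Finset.sum_congr rfl fun i _ => by abel
  · apply le_antisymm
    · have := sum_inf_le univ a ha p0
      rw [hs, inf_eq_right.mpr pe] at this
      exact this
    · apply sum_le_of_disj univ (fun i => a i ⊓ p) (fun i => le_inf (ha i) p0) _ p0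
        (fun i => inf_le_right)
      intro i j hij
      apply le_antisymm
      · rw [← hd i j hij]
        exact inf_le_inf inf_le_left inf_le_left
      · exact le_inf (le_inf (ha i) p0) (le_inf (ha j) p0)

end grp

section nsp
variable {E : Type u} [NormedAddCommGroup E] [Lattice E] [HasSolidNorm E] [IsOrderedAddMonoid E]
  [NormedSpace ℝ E] [PosSMulMono ℝ E]

lemma sm_nn {c : ℝ} (hc : 0 ≤ c) {a : E} (ha : 0 ≤ a) : 0 ≤ c • a := smul_nonneg hc ha

lemma sm_mono {c c' : ℝ} (h : c ≤ c') {a : E} (ha : 0 ≤ a) : c • a ≤ c' • a := by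
  rw [← sub_nonneg, ← sub_smul]
  exact sm_nn (by linarith) ha

lemma sm_disj {a b : E} (ha : 0 ≤ a) (hb : 0 ≤ b) (h : a ⊓ b = 0) {c c' : ℝ} (hc : 0 ≤ c)
    (hc' : 0 ≤ c') : (c • a) ⊓ (c' • b) = 0 := by
  apply le_antisymm _ (le_inf (sm_nn hc ha) (sm_nn hc' hb))
  have hM : 0 < c + c' + 1 := by linarith
  have h1 : (c + c' + 1)⁻¹ • ((c • a) ⊓ (c' • b)) ≤ 0 := by
    rw [← h]
    apply le_inf
    · have : (c • a) ⊓ (c' • b) ≤ (c + c' + 1) • a := inf_le_left.trans (sm_mono (by linarith) ha)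
      have h2 := smul_le_smul_of_nonneg_left this (inv_nonneg.mpr hM.le)
      rwa [smul_smul, inv_mul_cancel₀ hM.ne', one_smul] at h2
    · have : (c • a) ⊓ (c' • b) ≤ (c + c' + 1) • b := inf_le_right.trans (sm_mono (by linarith) hb)
      have h2 := smul_le_smul_of_nonneg_left this (inv_nonneg.mpr hM.le)
      rwa [smul_smul, inv_mul_cancel₀ hM.ne', one_smul] at h2
  have h3 := smul_le_smul_of_nonneg_left h1 hM.le
  rwa [smul_smul, mul_inv_cancel₀ hM.ne', one_smul, smul_zero] at h3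

/-- a simultaneous partition for finitely many components -/
lemma exists_part {e : E} (he : 0 ≤ e) (P : Finset E) (hP : ∀ p ∈ P, IsC e p) :
    ∃ (ι : Type) (_ : Fintype ι) (a : ι → E), (∀ i, 0 ≤ a i) ∧
      (∀ i j, i ≠ j → a i ⊓ a j = 0) ∧ ∑ i, a i = e ∧
      ∀ p ∈ P, ∃ χ : ι → ℝ, p = ∑ i, χ i • a i := by
  classical
  induction P using Finset.induction_on with
  | empty =>
    refine ⟨Unit, inferInstance, fun _ => e, fun _ => he, fun i j h => absurd (Subsingleton.elim i j) h,
      by simp, fun p hp => absurd hp (Finset.notMem_empty p)⟩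
  | insert p P hp ih =>
    obtain ⟨ι, _, a, a0, ad, ae, aP⟩ := ih fun r hr => hP r (Finset.mem_insert_of_mem hr)
    obtain ⟨b0, bd, be, bp⟩ := refine_part (hP p (Finset.mem_insert_self p P)) a a0 ad ae
    refine ⟨ι × Bool, inferInstance, _, b0, bd, be, ?_⟩
    intro r hr
    rcases Finset.mem_insert.mp hr with rfl | hr
    · refine ⟨fun x => if x.2 then 1 else 0, ?_⟩
      rw [Fintype.sum_prod_type]
      simp only [Fintype.sum_bool, if_true, Bool.false_eq_true, if_false, one_smul, zero_smul,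
        add_zero]
      exact bp
    · obtain ⟨χ, hχ⟩ := aP r hr
      refine ⟨fun x => χ x.1, ?_⟩
      rw [Fintype.sum_prod_type, hχ]
      apply Finset.sum_congr rfl
      intro i _
      simp only [Fintype.sum_bool, if_true, Bool.false_eq_true, if_false]
      rw [← smul_add]
      congr 1
      abel

/-- modulus of a combination of disjoint elements -/
lemma abs_comb {ι : Type} [Fintype ι] (a : ι → E) (a0 : ∀ i, 0 ≤ a i)
    (ad : ∀ i j, i ≠ j → a i ⊓ a j = 0) (b : ι → ℝ) :
    |∑ i, b i • a i| = ∑ i, |b i| • a i := by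
  classical
  set P := ∑ i, (b i ⊔ 0) • a i with hP
  set Q := ∑ i, (-b i ⊔ 0) • a i with hQ
  have p0 : ∀ i, 0 ≤ (b i ⊔ 0) • a i := fun i => sm_nn le_sup_right (a0 i)
  have q0 : ∀ i, 0 ≤ (-b i ⊔ 0) • a i := fun i => sm_nn le_sup_right (a0 i)
  have hPQ : P ⊓ Q = 0 := by
    apply le_antisymm _ (le_inf (Finset.sum_nonneg fun i _ => p0 i)
      (Finset.sum_nonneg fun i _ => q0 i))
    refine (sum_inf_le univ _ p0 (Finset.sum_nonneg fun i _ => q0 i)).trans ?_
    apply Finset.sum_nonpos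
    intro i _
    rw [inf_comm]
    refine (sum_inf_le univ _ q0 (p0 i)).trans ?_
    apply Finset.sum_nonpos
    intro j _
    by_cases hij : j = i
    · subst hij
      rcases le_total 0 (b j) with h | h
      · have : -b j ⊔ 0 = 0 := sup_eq_right.mpr (by linarith)
        rw [this, zero_smul]
        exact inf_le_left
      · have : b j ⊔ 0 = 0 := sup_eq_right.mpr h
        rw [this, zero_smul]
        exact inf_le_right
    · exact (sm_disj (a0 j) (a0 i) (ad j i hij) le_sup_right le_sup_right).le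
  have e1 : ∑ i, b i • a i = P - Q := by
    rw [hP, hQ, ← Finset.sum_sub_distrib]
    apply Finset.sum_congr rfl
    intro i _
    rw [← sub_smul]
    congr 1
    rcases le_total 0 (b i) with h | h
    · rw [sup_eq_left.mpr h, sup_eq_right.mpr (by linarith : -b i ≤ 0)]; ring
    · rw [sup_eq_right.mpr h, sup_eq_left.mpr (by linarith : 0 ≤ -b i)]; ring
  have e2 : ∑ i, |b i| • a i = P + Q := by
    rw [hP, hQ, ← Finset.sum_add_distrib]
    apply Finset.sum_congr rfl
    intro i _
    rw [← add_smul]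
    congr 1
    rcases le_total 0 (b i) with h | h
    · rw [sup_eq_left.mpr h, sup_eq_right.mpr (by linarith : -b i ≤ 0), abs_of_nonneg h]; ring
    · rw [sup_eq_right.mpr h, sup_eq_left.mpr (by linarith : 0 ≤ -b i), abs_of_nonpos h]; ring
  rw [e1, e2, abs_sub_comm, ← sup_sub_inf_eq_abs_sub, hPQ, sub_zero, ← inf_add_sup P Q, hPQ, zero_add]

/-- the solid model attached to a disjoint family -/
noncomputable def TT {d : ℕ} (a : Fin d → E) : (Fin d → ℝ) →ₗ[ℝ] E where
  toFun b := ∑ i, b i • a i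
  map_add' b c := by simp [add_smul, Finset.sum_add_distrib]
  map_smul' r b := by simp [Finset.smul_sum, smul_smul]

lemma TT_solid {d : ℕ} (a : Fin d → E) (a0 : ∀ i, 0 ≤ a i)
    (ad : ∀ i j, i ≠ j → a i ⊓ a j = 0) : Solid (TT a) := by
  intro b c hbc
  apply norm_le_norm_of_abs_le_abs
  change |∑ i, b i • a i| ≤ |∑ i, c i • a i|
  rw [abs_comb a a0 ad, abs_comb a a0 ad]
  exact Finset.sum_le_sum fun i _ => sm_mono (hbc i) (a0 i)

end nsp

end Pool.Agent.H16.MC
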