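import Mathlib
import Pool.Agent.H16.MC.BLat

set_option autoImplicit false
set_option linter.unusedSectionVars false

namespace Pool.Agent.H16.MC
open Finset

universe u

section
variable {E : Type u} [NormedAddCommGroup E] [Lattice E] [HasSolidNorm E] [IsOrderedAddMonoid E]
  [NormedSpace ℝ E] [PosSMulMono ℝ E] {q C : ℝ}

/-- the `(q,1)` estimate for positive elements -/
lemma pos_fam (hC : Cot E q C) (hC0 : 0 ≤ C) (hq : 1 ≤ q) {e : E} (he : 0 ≤ e) {N : ℕ}
    (w : Fin N → E) (w0 : ∀ i, 0 ≤ w i) (w1 : ∑ i, w i ≤ e) :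
    ∑ i, ‖w i‖ ^ q ≤ C ^ q * ‖e‖ ^ q := by
  refine (hC N w).trans ?_
  apply mul_le_mul_of_nonneg_left _ (Real.rpow_nonneg hC0 q)
  rw [div_le_iff₀ (by positivity)]
  have h2 : ∀ σ ∈ (Finset.univ : Finset (Fin N → ℤˣ)),
      ‖∑ j, (σ j : ℤ) • w j‖ ^ q ≤ ‖e‖ ^ q := by
    intro σ _
    apply Real.rpow_le_rpow (norm_nonneg _) _ (by linarith)
    apply norm_le_norm_of_abs_le_abs
    rw [abs_of_nonneg he]
    refine le_trans ?_ w1
    have h3 : ∀ s : Finset (Fin N), |∑ j ∈ s, (σ j : ℤ) • w j| ≤ ∑ j ∈ s, w j := by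
      classical
      intro s
      induction s using Finset.induction_on with
      | empty => simp
      | insert i s hi ih =>
        rw [Finset.sum_insert hi, Finset.sum_insert hi]
        refine (abs_add_le _ _).trans (add_le_add (le_of_eq ?_) ih)
        rcases Int.units_eq_one_or (σ i) with h | h
        · rw [h]; simp [abs_of_nonneg (w0 i)]
        · rw [h]; simp [abs_of_nonneg (w0 i)]
    exact h3 univ
  refine (Finset.sum_le_sum h2).trans (le_of_eq ?_)
  rw [Finset.sum_const, card_sgn, nsmul_eq_mul]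
  push_cast
  ring

/-- bounded monotone sequences converge -/
lemma kb [CompleteSpace E] (hC : Cot E q C) (hC0 : 0 ≤ C) (hq : 1 ≤ q) {e : E} (he : 0 ≤ e)
    (u : ℕ → E) (hu : Monotone u) (u0 : 0 ≤ u 0) (ue : ∀ k, u k ≤ e) :
    ∃ p, Filter.Tendsto u Filter.atTop (nhds p) := by
  apply cauchySeq_tendsto_of_complete
  rw [Metric.cauchySeq_iff']
  by_contra hcon
  push Not at hcon
  obtain ⟨ε, hε, hN⟩ := hcon
  choose nx hnx1 hnx2 using hN
  have hmono : ∀ i, (nx^[i]) 0 ≤ (nx^[i + 1]) 0 := by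
    intro i
    rw [Function.iterate_succ_apply']
    exact hnx1 _
  have hM : ∀ M : ℕ, (M : ℝ) * ε ^ q ≤ C ^ q * ‖e‖ ^ q := by
    intro M
    have h1 := pos_fam hC hC0 hq he (N := M)
      (fun i => u ((nx^[(i : ℕ) + 1]) 0) - u ((nx^[(i : ℕ)]) 0))
      (fun i => sub_nonneg.mpr (hu (hmono i))) (by
        rw [Fin.sum_univ_eq_sum_range (fun i => u ((nx^[i + 1]) 0) - u ((nx^[i]) 0)),
          Finset.sum_range_sub (fun i => u ((nx^[i]) 0))]
        refine (sub_le_self _ ?_).trans (ue _)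
        simpa using u0)
    refine le_trans ?_ h1
    have h2 : ∀ i ∈ (univ : Finset (Fin M)), ε ^ q ≤
        ‖u ((nx^[(i : ℕ) + 1]) 0) - u ((nx^[(i : ℕ)]) 0)‖ ^ q := by
      intro i _
      apply Real.rpow_le_rpow hε.le _ (by linarith)
      have := hnx2 ((nx^[(i : ℕ)]) 0)
      rw [dist_eq_norm] at this
      rw [Function.iterate_succ_apply']
      exact this
    refine le_trans (le_of_eq ?_) (Finset.sum_le_sum h2)
    simp
  have hεq : 0 < ε ^ q := Real.rpow_pos_of_pos hε q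
  obtain ⟨M, hM2⟩ := exists_nat_gt (C ^ q * ‖e‖ ^ q / ε ^ q)
  rw [div_lt_iff₀ hεq] at hM2
  linarith [hM M]

/-- the component of `e` generated by `u ≥ 0` -/
lemma exists_comp [CompleteSpace E] (hC : Cot E q C) (hC0 : 0 ≤ C) (hq : 1 ≤ q) {e : E}
    (he : 0 ≤ e) {u : E} (hu : 0 ≤ u) :
    ∃ p, IsC e p ∧ (∀ k : ℕ, e ⊓ (2 : ℝ) ^ k • u ≤ p) ∧
      ∀ v, (∀ k : ℕ, e ⊓ (2 : ℝ) ^ k • u ≤ v) → p ≤ v := by
  have hmono : Monotone fun k : ℕ => e ⊓ (2 : ℝ) ^ k • u := by
    intro k l hkl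
    exact inf_le_inf le_rfl (sm_mono (pow_le_pow_right₀ (by norm_num) hkl) hu)
  obtain ⟨p, hp⟩ := kb hC hC0 hq he (fun k : ℕ => e ⊓ (2 : ℝ) ^ k • u) hmono
    (le_inf he (sm_nn (by positivity) hu)) (fun k => inf_le_left)
  have h1 : ∀ k : ℕ, e ⊓ (2 : ℝ) ^ k • u ≤ p := fun k => hmono.ge_of_tendsto hp k
  have h2 : ∀ v, (∀ k : ℕ, e ⊓ (2 : ℝ) ^ k • u ≤ v) → p ≤ v := fun v hv =>
    le_of_tendsto' hp hv
  have p0 : 0 ≤ p := le_trans (le_inf he (sm_nn (by positivity) hu)) (h1 0)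
  have pe : p ≤ e := h2 e fun k => inf_le_left
  refine ⟨p, ⟨p0, pe, ?_⟩, h1, h2⟩
  -- `e ⊓ 2p = p`
  have h3 : e ⊓ (p + p) ≤ p := by
    have ht : Filter.Tendsto (fun k : ℕ => e ⊓ (e ⊓ (2 : ℝ) ^ k • u + e ⊓ (2 : ℝ) ^ k • u))
        Filter.atTop (nhds (e ⊓ (p + p))) :=
      Filter.Tendsto.inf_nhds tendsto_const_nhds (hp.add hp)
    apply le_of_tendsto' ht
    intro k
    refine le_trans ?_ (h1 (k + 1))
    apply le_inf inf_le_left
    have e1 : (2 : ℝ) ^ (k + 1) • u = (2 : ℝ) ^ k • u + (2 : ℝ) ^ k • u := by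
      rw [pow_succ, mul_two, add_smul]
    rw [e1]
    exact inf_le_right.trans (add_le_add inf_le_right inf_le_right)
  apply le_antisymm
  · have e2 : p ⊓ (e - p) = e ⊓ (p + p) - p := by
      rw [inf_sub, add_sub_cancel_right, inf_comm]
    rw [e2]
    exact sub_nonpos.mpr h3
  · exact le_inf p0 (sub_nonneg.mpr pe)

/-- approximation of `0 ≤ y ≤ e` by averages of components -/
lemma approx [CompleteSpace E] (hC : Cot E q C) (hC0 : 0 ≤ C) (hq : 1 ≤ q) {e : E}
    (he : 0 ≤ e) {y : E} (hy : 0 ≤ y) (hye : y ≤ e) (N : ℕ) (hN : 0 < N) :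
    ∃ p : ℕ → E, (∀ s, IsC e (p s)) ∧
      ‖y - (1 / (N : ℝ)) • ∑ s ∈ range N, p (s + 1)‖ ≤ ‖e‖ / N := by
  have hN0 : (0 : ℝ) < N := by exact_mod_cast hN
  set w : ℕ → E := fun s => y - ((s : ℝ) / N) • e with hw
  set z : ℕ → E := fun s => w s ⊔ 0 with hz
  have hz0 : ∀ s, 0 ≤ z s := fun s => le_sup_right
  choose p hpC hp1 hp2 using fun s => exists_comp hC hC0 hq he (hz0 s)
  refine ⟨p, hpC, ?_⟩
  have hws : ∀ s, w s = w (s + 1) + (1 / (N : ℝ)) • e := by
    intro s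
    simp only [hw]
    have : ((s + 1 : ℕ) : ℝ) / N = (s : ℝ) / N + 1 / N := by push_cast; ring
    rw [this, add_smul]
    abel
  have heN : 0 ≤ (1 / (N : ℝ)) • e := sm_nn (by positivity) he
  -- upper bound
  have hup : ∀ s, z s - z (s + 1) ≤ (1 / (N : ℝ)) • p s := by
    intro s
    have a1 : z s - z (s + 1) ≤ (1 / (N : ℝ)) • e := by
      rw [sub_le_iff_le_add]
      apply sup_le
      · rw [hws s, add_comm]
        exact add_le_add le_rfl le_sup_left
      · exact add_nonneg heN (hz0 _)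
    have a2 : z s - z (s + 1) ≤ z s := sub_le_self _ (hz0 _)
    obtain ⟨k, hk⟩ : ∃ k : ℕ, (N : ℝ) ≤ 2 ^ k := ⟨N, by exact_mod_cast (Nat.lt_two_pow_self).le⟩
    have a3 : (N : ℝ) • (z s - z (s + 1)) ≤ p s := by
      refine le_trans ?_ (hp1 s k)
      apply le_inf
      · have := smul_le_smul_of_nonneg_left a1 hN0.le
        rwa [smul_smul, mul_one_div_cancel hN0.ne', one_smul] at this
      · exact (smul_le_smul_of_nonneg_left a2 hN0.le).trans (sm_mono hk (hz0 s))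
    have a4 := smul_le_smul_of_nonneg_left a3 (by positivity : (0 : ℝ) ≤ 1 / N)
    rwa [smul_smul, one_div_mul_cancel hN0.ne', one_smul] at a4
  -- lower bound
  have hlo : ∀ s, (1 / (N : ℝ)) • p (s + 1) ≤ z s - z (s + 1) := by
    intro s
    have b1 : (1 / (N : ℝ)) • e ⊓ z s ≤ z s - z (s + 1) := by
      have : z s - z (s + 1) = (z s - w (s + 1)) ⊓ (z s - 0) := by
        rw [← sub_sup]
      rw [this, sub_zero]
      apply inf_le_inf _ le_rfl
      rw [le_sub_iff_add_le, add_comm, ← hws]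
      exact le_sup_left
    have b2 : p (s + 1) ≤ (N : ℝ) • z s := by
      apply hp2
      intro k
      set a := (2 : ℝ) ^ k • z (s + 1) with ha
      set b := (N : ℝ) • (-w (s + 1) ⊔ 0) with hb
      have a0 : 0 ≤ a := sm_nn (by positivity) (hz0 _)
      have b0 : 0 ≤ b := sm_nn hN0.le le_sup_right
      have hdis : a ⊓ b = 0 := by
        apply sm_disj (hz0 _) le_sup_right _ (by positivity) hN0.le
        have := posPart_inf_negPart_eq_zero (w (s + 1))
        exact this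
      have h5 : e ⊓ a + e ⊓ b ≤ e := by
        apply disj_add _ inf_le_left inf_le_left
        apply le_antisymm
        · rw [← hdis]; exact inf_le_inf inf_le_right inf_le_right
        · exact le_inf (le_inf he a0) (le_inf he b0)
      have h6 : e ⊓ a ≤ e - e ⊓ b := le_sub_iff_add_le.mpr h5
      refine h6.trans ?_
      rw [sub_inf, sub_self]
      apply sup_le (sm_nn hN0.le (hz0 s))
      have h7 : e - b ≤ (N : ℝ) • w s := by
        have h8 : w s = w (s + 1) + (1 / (N : ℝ)) • e := hws s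
        rw [h8, smul_add, smul_smul, mul_one_div_cancel hN0.ne', one_smul, hb,
          sub_eq_add_neg, add_comm]
        apply add_le_add_left
        rw [← smul_neg]
        apply smul_le_smul_of_nonneg_left _ hN0.le
        rw [neg_le]
        exact le_sup_left
      exact h7.trans (smul_le_smul_of_nonneg_left le_sup_left hN0.le)
    refine le_trans (le_inf ?_ ?_) b1
    · exact smul_le_smul_of_nonneg_left (hpC _).2.1 (by positivity)
    · have := smul_le_smul_of_nonneg_left b2 (by positivity : (0 : ℝ) ≤ 1 / N)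
      rwa [smul_smul, one_div_mul_cancel hN0.ne', one_smul] at this
  have hz0' : z 0 = y := by
    simp only [hz, hw]
    simp [hy]
  have hzN : z N = 0 := by
    simp only [hz, hw]
    rw [div_self hN0.ne', one_smul]
    exact sup_eq_right.mpr (sub_nonpos.mpr hye)
  have htel : ∑ s ∈ range N, (z s - z (s + 1)) = y := by
    rw [Finset.sum_range_sub', hz0', hzN, sub_zero]
  set A := (1 / (N : ℝ)) • ∑ s ∈ range N, p (s + 1) with hA
  have hA1 : A ≤ y := by
    rw [hA, ← htel, Finset.smul_sum]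
    exact Finset.sum_le_sum fun s _ => hlo s
  have hA2 : y ≤ A + (1 / (N : ℝ)) • e := by
    have c1 : y ≤ (1 / (N : ℝ)) • ∑ s ∈ range N, p s := by
      rw [← htel, Finset.smul_sum]
      exact Finset.sum_le_sum fun s _ => hup s
    refine c1.trans ?_
    rw [hA, ← smul_add]
    apply smul_le_smul_of_nonneg_left _ (by positivity)
    have c2 : ∑ s ∈ range N, p s + p N = ∑ s ∈ range N, p (s + 1) + p 0 := by
      rw [← Finset.sum_range_succ, Finset.sum_range_succ']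
    calc ∑ s ∈ range N, p s ≤ ∑ s ∈ range N, p s + p N := le_add_of_nonneg_right (hpC N).1
      _ = ∑ s ∈ range N, p (s + 1) + p 0 := c2
      _ ≤ ∑ s ∈ range N, p (s + 1) + e := add_le_add le_rfl (hpC 0).2.1
  have hfin : ‖y - A‖ ≤ ‖(1 / (N : ℝ)) • e‖ := by
    apply norm_le_norm_of_abs_le_abs
    rw [abs_of_nonneg (sub_nonneg.mpr hA1), abs_of_nonneg heN, sub_le_iff_le_add']
    exact hA2
  refine hfin.trans (le_of_eq ?_)
  rw [norm_smul, Real.norm_of_nonneg (by positivity)]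
  ring

/-- local solid models in Banach lattices of finite cotype -/
theorem locSq_of_lattice [CompleteSpace E] (hC : Cot E q C) (hC0 : 0 ≤ C) (hq : 1 ≤ q) :
    LocSq E q (Kc q C) := by
  classical
  intro S δ hδ
  set e : E := ∑ y ∈ S, |y| with he
  have he0 : 0 ≤ e := Finset.sum_nonneg fun y _ => abs_nonneg y
  have hye : ∀ y ∈ S, |y| ≤ e := fun y hy =>
    Finset.single_le_sum (f := fun y : E => |y|) (fun z _ => abs_nonneg z) hy
  obtain ⟨N, hN⟩ := exists_nat_gt (2 * ‖e‖ / δ)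
  have hN0 : (0 : ℝ) < N := lt_of_le_of_lt (by positivity) hN
  have hNn : 0 < N := by exact_mod_cast hN0
  have hNe : ‖e‖ / N + ‖e‖ / N ≤ δ := by
    rw [div_lt_iff₀ hδ] at hN
    rw [← add_div, div_le_iff₀ hN0]
    linarith
  have hpos : ∀ y ∈ S, y ⊔ 0 ≤ e := fun y hy =>
    sup_le ((le_abs_self y).trans (hye y hy)) he0
  have hneg : ∀ y ∈ S, -y ⊔ 0 ≤ e := fun y hy =>
    sup_le ((neg_le_abs y).trans (hye y hy)) he0
  have h1 : ∀ y : S, ∃ p : ℕ → E, (∀ s, IsC e (p s)) ∧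
      ‖((y : E) ⊔ 0) - (1 / (N : ℝ)) • ∑ s ∈ range N, p (s + 1)‖ ≤ ‖e‖ / N := fun y =>
    approx hC hC0 hq he0 le_sup_right (hpos y y.2) N hNn
  have h2 : ∀ y : S, ∃ p : ℕ → E, (∀ s, IsC e (p s)) ∧
      ‖(-(y : E) ⊔ 0) - (1 / (N : ℝ)) • ∑ s ∈ range N, p (s + 1)‖ ≤ ‖e‖ / N := fun y =>
    approx hC hC0 hq he0 le_sup_right (hneg y y.2) N hNn
  choose p1 hp1 hp1' using h1
  choose p2 hp2 hp2' using h2
  set P : Finset E := (univ : Finset S).biUnion fun y =>
    ((range (N + 1)).image (p1 y)) ∪ ((range (N + 1)).image (p2 y)) with hP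
  have hPC : ∀ p ∈ P, IsC e p := by
    intro p hp
    rw [hP, Finset.mem_biUnion] at hp
    obtain ⟨y, _, hy⟩ := hp
    rcases Finset.mem_union.mp hy with h | h
    · obtain ⟨s, _, rfl⟩ := Finset.mem_image.mp h
      exact hp1 y s
    · obtain ⟨s, _, rfl⟩ := Finset.mem_image.mp h
      exact hp2 y s
  obtain ⟨ι, _, a, a0, ad, ae, aP⟩ := exists_part he0 P hPC
  set φ := Fintype.equivFin ι with hφ
  set a' : Fin (Fintype.card ι) → E := fun i => a (φ.symm i) with ha'
  have a0' : ∀ i, 0 ≤ a' i := fun i => a0 _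
  have ad' : ∀ i j, i ≠ j → a' i ⊓ a' j = 0 := fun i j hij =>
    ad _ _ fun h => hij (φ.symm.injective h)
  have hS := TT_solid a' a0' ad'
  refine ⟨Fintype.card ι, TT a', hS, conc_of_cot hS hC hC0 hq, ?_⟩
  have hran : ∀ p ∈ P, ∃ c, TT a' c = p := by
    intro p hp
    obtain ⟨χ, hχ⟩ := aP p hp
    refine ⟨fun i => χ (φ.symm i), ?_⟩
    rw [hχ]
    exact Equiv.sum_comp φ.symm (fun i => χ i • a i)
  have hranS : ∀ p : E, p ∈ P → p ∈ LinearMap.range (TT a') := fun p hp => hran p hp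
  intro y hy
  set A1 := (1 / (N : ℝ)) • ∑ s ∈ range N, p1 ⟨y, hy⟩ (s + 1) with hA1
  set A2 := (1 / (N : ℝ)) • ∑ s ∈ range N, p2 ⟨y, hy⟩ (s + 1) with hA2
  have m1 : A1 ∈ LinearMap.range (TT a') := by
    apply Submodule.smul_mem
    apply Submodule.sum_mem
    intro s hs
    apply hranS
    rw [hP, Finset.mem_biUnion]
    refine ⟨⟨y, hy⟩, Finset.mem_univ _, Finset.mem_union_left _ (Finset.mem_image_of_mem _ ?_)⟩
    rw [Finset.mem_range] at hs ⊢
    omega
  have m2 : A2 ∈ LinearMap.range (TT a') := by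
    apply Submodule.smul_mem
    apply Submodule.sum_mem
    intro s hs
    apply hranS
    rw [hP, Finset.mem_biUnion]
    refine ⟨⟨y, hy⟩, Finset.mem_univ _, Finset.mem_union_right _ (Finset.mem_image_of_mem _ ?_)⟩
    rw [Finset.mem_range] at hs ⊢
    omega
  obtain ⟨c, hc⟩ := Submodule.sub_mem _ m1 m2
  refine ⟨c, ?_⟩
  rw [hc]
  have e1 : y - (A1 - A2) = ((y ⊔ 0) - A1) - ((-y ⊔ 0) - A2) := by
    have : y = (y ⊔ 0) - (-y ⊔ 0) := (posPart_sub_negPart y).symm
    nth_rewrite 1 [this]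
    abel
  rw [e1]
  refine (norm_sub_le _ _).trans (le_trans (add_le_add ?_ ?_) hNe)
  · exact hp1' ⟨y, hy⟩
  · exact hp2' ⟨y, hy⟩

end

end Pool.Agent.H16.MC
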