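import Mathlib
import Pool.Agent.H16.MC.BLat2

set_option autoImplicit false

namespace Pool.Agent.H16.MC
open Finset

universe u v

lemma Kc_nonneg {q C : ℝ} (hC0 : 0 ≤ C) (hq : 1 ≤ q) : 0 ≤ Kc q C := by
  unfold Kc
  have hCq := Real.rpow_nonneg hC0 q
  have hM := Mq_nonneg q
  positivity

lemma LocSq.mono {Y : Type u} [NormedAddCommGroup Y] [NormedSpace ℝ Y] {q K K' : ℝ}
    (hq : 0 ≤ q) (hK : 0 ≤ K) (h : K ≤ K') (hY : LocSq Y q K) : LocSq Y q K' := by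
  intro s δ hδ
  obtain ⟨d, T, hS, hC, hs⟩ := hY s δ hδ
  refine ⟨d, T, hS, ?_, hs⟩
  intro k a
  refine (hC k a).trans ?_
  exact mul_le_mul_of_nonneg_right (Real.rpow_le_rpow hK h hq) (Real.rpow_nonneg (norm_nonneg _) _)

/-- the metric cotype constant -/
noncomputable def Gam (q C : ℝ) : ℝ := 288 * max 1 (Kc q C)

theorem mci_lattice {E : Type u} [NormedAddCommGroup E] [Lattice E] [HasSolidNorm E]
    [IsOrderedAddMonoid E] [NormedSpace ℝ E] [PosSMulMono ℝ E] [CompleteSpace E] {q C : ℝ}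
    (hC : Cot E q C) (hC0 : 0 ≤ C) (hq : 2 ≤ q) {n m : ℕ} [NeZero m] (hm : Even m)
    (hmn : (n : ℝ) ^ (1 / q) ≤ m) : MCI E q (Gam q C) n m := by
  have h1 : LocSq E q (max 1 (Kc q C)) :=
    (locSq_of_lattice hC hC0 (by linarith)).mono (by linarith) (Kc_nonneg hC0 (by linarith))
      (le_max_right _ _)
  exact mci_of_locSq h1 (le_max_left _ _) hq hm hmn

theorem MCI.comap {E : Type u} [NormedAddCommGroup E] {Y : Type v} [NormedAddCommGroup Y]
    {q G A : ℝ} (hq : 0 ≤ q) (hG : 0 ≤ G) {n m : ℕ} [NeZero m] (h : MCI E q G n m) (J : Y → E)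
    (hJ : ∀ x y, ‖x - y‖ ≤ ‖J x - J y‖ ∧ ‖J x - J y‖ ≤ A * ‖x - y‖) :
    MCI Y q (G * max A 0) n m := by
  intro f
  have hA : 0 ≤ max A 0 := le_max_right _ _
  have h0 := h (fun x => J (f x))
  have hm0 : (0 : ℝ) ≤ (m : ℝ) ^ n := by positivity
  have h1 : ∑ j : Fin n, (∑ x : Fin n → ZMod m, ‖f (x + (m / 2) • Pi.single j 1) - f x‖ ^ q) /
        (m : ℝ) ^ n ≤ ∑ j : Fin n, (∑ x : Fin n → ZMod m,
          ‖J (f (x + (m / 2) • Pi.single j 1)) - J (f x)‖ ^ q) / (m : ℝ) ^ n := by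
    apply Finset.sum_le_sum
    intro j _
    apply div_le_div_of_nonneg_right _ hm0
    apply Finset.sum_le_sum
    intro x _
    exact Real.rpow_le_rpow (norm_nonneg _) (hJ _ _).1 hq
  refine h1.trans (h0.trans ?_)
  have h2 : ∑ x : Fin n → ZMod m,
        ∑ ε ∈ Fintype.piFinset (fun _ : Fin n => ({-1, 0, 1} : Finset ℤ)),
          ‖J (f (x + fun j => (ε j : ZMod m))) - J (f x)‖ ^ q ≤ (max A 0) ^ q *
      ∑ x : Fin n → ZMod m,
        ∑ ε ∈ Fintype.piFinset (fun _ : Fin n => ({-1, 0, 1} : Finset ℤ)),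
          ‖f (x + fun j => (ε j : ZMod m)) - f x‖ ^ q := by
    rw [Finset.mul_sum]
    apply Finset.sum_le_sum
    intro x _
    rw [Finset.mul_sum]
    apply Finset.sum_le_sum
    intro ε _
    rw [← Real.mul_rpow hA (norm_nonneg _)]
    apply Real.rpow_le_rpow (norm_nonneg _) _ hq
    exact (hJ _ _).2.trans (mul_le_mul_of_nonneg_right (le_max_left _ _) (norm_nonneg _))
  rw [Real.mul_rpow hG hA]
  calc G ^ q * (m : ℝ) ^ q * ((∑ x : Fin n → ZMod m,
        ∑ ε ∈ Fintype.piFinset (fun _ : Fin n => ({-1, 0, 1} : Finset ℤ)),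
          ‖J (f (x + fun j => (ε j : ZMod m))) - J (f x)‖ ^ q) / ((m : ℝ) ^ n * 3 ^ n))
      ≤ G ^ q * (m : ℝ) ^ q * (((max A 0) ^ q * ∑ x : Fin n → ZMod m,
        ∑ ε ∈ Fintype.piFinset (fun _ : Fin n => ({-1, 0, 1} : Finset ℤ)),
          ‖f (x + fun j => (ε j : ZMod m)) - f x‖ ^ q) / ((m : ℝ) ^ n * 3 ^ n)) := by
        apply mul_le_mul_of_nonneg_left _ (by positivity)
        exact div_le_div_of_nonneg_right h2 (by positivity)
    _ = _ := by ring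

end Pool.Agent.H16.MC
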